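import Pool.Agent.Helper83.FM.Ind
import Pool.Agent.Helper38.QD.Inv

/-!
A model with an independent set of positive proportion has many copies.
-/

set_option autoImplicit false

namespace Pool.Agent.Helper83.FM

open FirstOrder FirstOrder.Language Pool.Agent.Helper20.Spectra
open Pool.Agent.Helper58.QD
open Pool.Agent.Helper38.QD (isMod_perm)

section aut

variable {M ι : Type*} {k : ℕ} [Fintype M] [DecidableEq M]

/-- an automorphism is determined by its values off an independent set -/
lemma aut_inj (R : ι → (Fin k → M) → Prop) {A : Finset M} (hA : Ind R A) (σ τ : Equiv.Perm M)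
    (hσ : ∀ i t, R i (σ ∘ t) ↔ R i t) (hτ : ∀ i t, R i (τ ∘ t) ↔ R i t)
    (h : ∀ x ∉ A, σ x = τ x) : σ = τ := by
  set ρ : Equiv.Perm M := τ⁻¹ * σ with hρ
  have hρR : ∀ i t, R i (ρ ∘ t) ↔ R i t := by
    intro i t
    rw [← hτ i (ρ ∘ t), ← hσ i t]
    have e : (τ ∘ (ρ ∘ t)) = σ ∘ t := by
      funext j
      simp [hρ]
    rw [e]
  have hfix : ∀ x ∉ A, ρ x = x := by
    intro x hx
    rw [hρ, Equiv.Perm.mul_apply, h x hx]
    simp
  have hall : ∀ x, ρ x = x := by
    intro x
    by_cases hx : x ∈ A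
    · by_contra hne
      have hρx : ρ x ∈ A := by
        by_contra h1
        exact hne (ρ.injective (hfix _ h1))
      refine hA x hx (ρ x) hρx (fun h2 => hne h2.symm) ?_
      intro i s hs
      rw [← hρR i (fill s x)]
      have e : (ρ ∘ fill s x) = fill s (ρ x) := by
        funext j
        simp only [Function.comp, fill]
        cases hj : s j with
        | none => simp
        | some w =>
          simp only [Option.getD_some]
          exact hfix w (Finset.mem_compl.1 (hs j w hj))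
      rw [e]
    · exact hfix x hx
  have h1 : ρ = 1 := Equiv.ext hall
  rw [hρ] at h1
  exact (inv_mul_eq_one.1 h1).symm

open Classical in
lemma aut_card (R : ι → (Fin k → M) → Prop) {A : Finset M} (hA : Ind R A) :
    (Finset.univ.filter fun σ : Equiv.Perm M => ∀ i t, R i (σ ∘ t) ↔ R i t).card ≤
      Fintype.card M ^ (Fintype.card M - A.card) := by
  have h1 : (Finset.univ.filter fun σ : Equiv.Perm M => ∀ i t, R i (σ ∘ t) ↔ R i t).card ≤
      Fintype.card ((Aᶜ : Finset M) → M) := by
    rw [← Finset.card_univ]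
    refine Finset.card_le_card_of_injOn (fun σ => fun x : (Aᶜ : Finset M) => σ x)
      (fun _ _ => Finset.mem_univ _) ?_
    intro σ hσ τ hτ h
    have hσ' := (Finset.mem_filter.1 (Finset.mem_coe.1 hσ)).2
    have hτ' := (Finset.mem_filter.1 (Finset.mem_coe.1 hτ)).2
    refine aut_inj R hA σ τ hσ' hτ' ?_
    intro x hx
    exact congrFun h ⟨x, Finset.mem_compl.2 hx⟩
  rw [Fintype.card_fun, Fintype.card_coe, Finset.card_compl] at h1
  exact h1

end aut

variable {S : Type} {ar : S → ℕ}

/-- the relations as relations of the same arity -/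
def pad {M : Type} {k : ℕ} (hk : ∀ s, ar s ≤ k) (R : Interp S ar M) : S → (Fin k → M) → Prop :=
  fun s t => R s (fun i => t (Fin.castLE (hk s) i))

lemma pad_aut {M : Type} {k : ℕ} (hk : ∀ s, ar s ≤ k) (R : Interp S ar M) (σ : Equiv.Perm M)
    (h : ∀ s t, R s (σ ∘ t) ↔ R s t) : ∀ s t, pad hk R s (σ ∘ t) ↔ pad hk R s t :=
  fun s t => h s fun i => t (Fin.castLE (hk s) i)

/-- `n! ≤ N · |Aut|` -/
theorem factorial_le [Finite S] {χ : (RelLang S ar).Sentence} {n k : ℕ} (hk : ∀ s, ar s ≤ k)
    {R : Interp S ar (Fin n)} (hR : IsMod χ R) {A : Finset (Fin n)} (hA : Ind (pad hk R) A) :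
    n.factorial ≤ count χ n * n ^ (n - A.card) := by
  classical
  have : Finite (Interp S ar (Fin n)) := Pi.finite
  have := Fintype.ofFinite {R : Interp S ar (Fin n) // IsMod χ R}
  let Φ : Equiv.Perm (Fin n) → {R : Interp S ar (Fin n) // IsMod χ R} := fun σ =>
    ⟨fun s w => R s (σ ∘ w), isMod_perm hR σ⟩
  have h1 := Finset.card_le_mul_card_image (f := Φ) (Finset.univ : Finset (Equiv.Perm (Fin n)))
    (n ^ (n - A.card)) (by
      intro a ha
      obtain ⟨σ0, _, rfl⟩ := Finset.mem_image.1 ha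
      have h2 := aut_card (pad hk R) hA
      rw [Fintype.card_fin] at h2
      refine le_trans ?_ h2
      refine Finset.card_le_card_of_injOn (fun σ => σ * σ0⁻¹) ?_ ?_
      · intro σ hσ
        have h3 : Φ σ = Φ σ0 := (Finset.mem_filter.1 (Finset.mem_coe.1 hσ)).2
        have h4 := congrArg Subtype.val h3
        rw [Finset.mem_coe, Finset.mem_filter]
        refine ⟨Finset.mem_univ _, pad_aut hk R _ ?_⟩
        intro s t
        have h5 : R s (σ ∘ (⇑σ0⁻¹ ∘ t)) = R s (σ0 ∘ (⇑σ0⁻¹ ∘ t)) :=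
          congrFun (congrFun h4 s) (⇑σ0⁻¹ ∘ t)
        have e1 : (⇑(σ * σ0⁻¹) ∘ t) = σ ∘ (⇑σ0⁻¹ ∘ t) := by
          funext j
          simp
        have e2 : (σ0 ∘ (⇑σ0⁻¹ ∘ t)) = t := by
          funext j
          simp
        rw [e1, h5, e2]
      · intro σ _ τ _ h
        exact mul_right_cancel h)
  have h2 : (Finset.univ : Finset (Equiv.Perm (Fin n))).card = n.factorial := by
    rw [Finset.card_univ, Fintype.card_perm, Fintype.card_fin]
  rw [h2] at h1
  refine h1.trans ?_
  rw [mul_comm]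
  refine Nat.mul_le_mul_right _ ?_
  have h3 : count χ n = Fintype.card {R : Interp S ar (Fin n) // IsMod χ R} :=
    Nat.card_eq_fintype_card
  rw [h3]
  exact Finset.card_le_univ _

lemma pow_self_le (n : ℕ) : n ^ n ≤ 3 ^ n * n.factorial := by
  have h1 := Real.pow_div_factorial_le_exp (n : ℝ) (by positivity) n
  have h2 : Real.exp (n : ℝ) ≤ 3 ^ n := by
    have h3 : Real.exp (n : ℝ) = Real.exp 1 ^ n := by
      rw [← Real.exp_nat_mul]
      simp
    rw [h3]
    have h4 := Real.exp_one_lt_d9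
    exact pow_le_pow_left₀ (Real.exp_pos 1).le (by linarith) n
  have h5 : (n : ℝ) ^ n ≤ 3 ^ n * (n.factorial : ℝ) := by
    have h6 : (0 : ℝ) < (n.factorial : ℝ) := by exact_mod_cast n.factorial_pos
    rw [div_le_iff₀ h6] at h1
    exact h1.trans (mul_le_mul_of_nonneg_right h2 h6.le)
  exact_mod_cast h5

/-- many models -/
theorem many_models [Finite S] {χ : (RelLang S ar).Sentence} {n k D : ℕ} (hk : ∀ s, ar s ≤ k)
    {R : Interp S ar (Fin n)} (hR : IsMod χ R) {A : Finset (Fin n)} (hA : Ind (pad hk R) A)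
    (hD : n ≤ D * A.card) (hn : 9 ^ D ≤ n) : n ^ n ≤ count χ n ^ (2 * D) := by
  have hn0 : 0 < n := lt_of_lt_of_le (by positivity) hn
  have h1 := factorial_le hk hR hA
  have h2 := pow_self_le n
  have hAn : A.card ≤ n := by
    have := Finset.card_le_univ A
    rwa [Fintype.card_fin] at this
  have h3 : n ^ A.card ≤ 3 ^ n * count χ n := by
    have h4 : n ^ A.card * n ^ (n - A.card) ≤ 3 ^ n * count χ n * n ^ (n - A.card) := by
      rw [← pow_add, Nat.add_sub_cancel' hAn, mul_assoc]
      exact h2.trans (Nat.mul_le_mul_left _ h1)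
    exact Nat.le_of_mul_le_mul_right h4 (by positivity)
  have h5 : n ^ n * n ^ n ≤ n ^ n * count χ n ^ (2 * D) := by
    have h6 : (n ^ A.card) ^ (2 * D) ≤ (3 ^ n * count χ n) ^ (2 * D) := Nat.pow_le_pow_left h3 _
    rw [mul_pow] at h6
    have h7 : n ^ n * n ^ n ≤ (n ^ A.card) ^ (2 * D) := by
      rw [← pow_add, ← pow_mul]
      exact Nat.pow_le_pow_right hn0 (by nlinarith)
    have h8 : (3 ^ n) ^ (2 * D) ≤ n ^ n := by
      have h9 : (3 ^ n) ^ (2 * D) = (9 ^ D) ^ n := by
        rw [← pow_mul, ← pow_mul]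
        have : (9 : ℕ) = 3 ^ 2 := by norm_num
        rw [this, ← pow_mul]
        ring_nf
      rw [h9]
      exact Nat.pow_le_pow_left hn n
    exact h7.trans (h6.trans (Nat.mul_le_mul_right _ h8))
  exact Nat.le_of_mul_le_mul_left h5 (by positivity)

end Pool.Agent.Helper83.FM
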