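import Pool.Agent.Helper83.FM.Aut
import Pool.Agent.Helper38.MC.Pump
import Pool.Agent.Helper6.QG.Base

/-!
Sentences all of whose models have boundedly many twin classes.
-/

set_option autoImplicit false

namespace Pool.Agent.Helper83.FM

open FirstOrder FirstOrder.Language Pool.Agent.Helper20.Spectra
open Pool.Agent.Helper58.QD
open Pool.Agent.Helper31.QD (Au qd)

variable {S : Type} {ar : S → ℕ}

/-- a set of pairwise non-twins -/
def NT {n : ℕ} (R : Interp S ar (Fin n)) (T : Finset (Fin n)) : Prop :=
  ∀ x ∈ T, ∀ y ∈ T, x ≠ y → ¬ Au R (Equiv.swap x y)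

lemma tw_refl {n : ℕ} (R : Interp S ar (Fin n)) (x : Fin n) : Au R (Equiv.swap x x) :=
  fun s t => Helper6.QG.twin_refl (R s) x t

lemma tw_symm {n : ℕ} {R : Interp S ar (Fin n)} {x y : Fin n} (h : Au R (Equiv.swap x y)) :
    Au R (Equiv.swap y x) := by
  rw [Equiv.swap_comm]
  exact h

lemma tw_trans {n : ℕ} {R : Interp S ar (Fin n)} {x y z : Fin n} (h : Au R (Equiv.swap x y))
    (h' : Au R (Equiv.swap y z)) : Au R (Equiv.swap x z) :=
  fun s => Helper6.QG.twin_trans (h s) (h' s)

/-- representatives of the twin classes -/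
lemma exists_reps {n : ℕ} (R : Interp S ar (Fin n)) : ∃ T : Finset (Fin n), NT R T ∧
    ∀ x, ∃ y ∈ T, Au R (Equiv.swap x y) := by
  classical
  obtain ⟨T, hTm, hTmax⟩ : ∃ T ∈ (Finset.univ.filter fun T : Finset (Fin n) => NT R T),
      ∀ T' ∈ (Finset.univ.filter fun T : Finset (Fin n) => NT R T), T'.card ≤ T.card := by
    apply Finset.exists_max_image
    refine ⟨∅, ?_⟩
    rw [Finset.mem_filter]
    refine ⟨Finset.mem_univ _, ?_⟩
    intro x hx
    simp at hx
  have hT : NT R T := (Finset.mem_filter.1 hTm).2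
  refine ⟨T, hT, fun x => ?_⟩
  by_contra hcon
  push Not at hcon
  have hx : x ∉ T := fun h => hcon x h (tw_refl R x)
  have h1 : NT R (insert x T) := by
    intro u hu v hv huv h
    rcases Finset.mem_insert.1 hu with e | hu'
    · rcases Finset.mem_insert.1 hv with e' | hv'
      · exact huv (e.trans e'.symm)
      · exact hcon v hv' (e ▸ h)
    · rcases Finset.mem_insert.1 hv with e' | hv'
      · exact hcon u hu' (e' ▸ tw_symm h)
      · exact hT u hu' v hv' huv h
  have h2 := hTmax _ (Finset.mem_filter.2 ⟨Finset.mem_univ _, h1⟩)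
  rw [Finset.card_insert_of_notMem hx] at h2
  omega

/-- truth of an atom depends on the twin classes and the equalities only -/
lemma atom_congr {n : ℕ} {R : Interp S ar (Fin n)} {s : S} : ∀ (m : ℕ) (t t' : Fin (ar s) → Fin n),
    (Finset.univ.filter fun i => t i ≠ t' i).card = m → (∀ i, Au R (Equiv.swap (t i) (t' i))) →
    (∀ i j, t i = t j ↔ t' i = t' j) → (R s t ↔ R s t') := by
  intro m
  induction m using Nat.strong_induction_on with
  | _ m ih =>
    intro t t' hm htw hp
    by_cases h0 : ∀ i, t i = t' i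
    · rw [funext h0]
    push Not at h0
    obtain ⟨i, hi⟩ := h0
    have h1 : ∀ j, t j = t i → (Equiv.swap (t i) (t' i) ∘ t) j = t' j := by
      intro j hj
      simp only [Function.comp]
      rw [hj, Equiv.swap_apply_left]
      exact ((hp j i).1 hj).symm
    have h2 : ∀ j, t j = t' j → (Equiv.swap (t i) (t' i) ∘ t) j = t' j := by
      intro j hj
      by_cases hji : t j = t i
      · exact h1 j hji
      · simp only [Function.comp]
        rw [Equiv.swap_apply_of_ne_of_ne hji, hj]
        intro h3
        have h4 : t' j = t' i := by rw [← hj, h3]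
        exact hji ((hp j i).2 h4)
    have hlt : (Finset.univ.filter fun j => (Equiv.swap (t i) (t' i) ∘ t) j ≠ t' j).card < m := by
      rw [← hm]
      apply Finset.card_lt_card
      refine ⟨?_, ?_⟩
      · intro j hj
        rw [Finset.mem_filter] at hj ⊢
        exact ⟨Finset.mem_univ _, fun h => hj.2 (h2 j h)⟩
      · intro hsub
        have h3 : i ∈ Finset.univ.filter fun j => (Equiv.swap (t i) (t' i) ∘ t) j ≠ t' j :=
          hsub (Finset.mem_filter.2 ⟨Finset.mem_univ _, hi⟩)
        exact (Finset.mem_filter.1 h3).2 (h1 i rfl)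
    rw [← htw i s t]
    refine ih _ hlt _ t' rfl ?_ ?_
    · intro j
      by_cases hji : t j = t i
      · rw [h1 j hji]
        exact tw_refl R _
      · by_cases hji' : t j = t' i
        · have e : (Equiv.swap (t i) (t' i) ∘ t) j = t i := by
            simp only [Function.comp]
            rw [hji', Equiv.swap_apply_right]
          rw [e]
          exact tw_trans (htw i) (tw_trans (by rw [← hji']; exact tw_refl R _) (htw j))
        · have e : (Equiv.swap (t i) (t' i) ∘ t) j = t j := by
            simp only [Function.comp]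
            exact Equiv.swap_apply_of_ne_of_ne hji hji'
          rw [e]
          exact htw j
    · intro j j'
      simp only [Function.comp]
      rw [(Equiv.injective _).eq_iff]
      exact hp j j'

/-- the codes of models with at most `r` twin classes -/
abbrev Code (S : Type) (ar : S → ℕ) (r : ℕ) : Type :=
  ∀ s : S, (Fin (ar s) → Fin r) → (Fin (ar s) → Fin (ar s) → Prop) → Prop

theorem count_le [Finite S] {χ : (RelLang S ar).Sentence} {r : ℕ}
    (h : ∀ (n : ℕ) (R : Interp S ar (Fin n)) (T : Finset (Fin n)), IsMod χ R → NT R T → T.card ≤ r) :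
    ∃ C, ∀ n, 1 ≤ n → count χ n ≤ C ^ n := by
  classical
  have hfin : Finite (Code S ar r) := by
    have : ∀ s : S, Finite ((Fin (ar s) → Fin r) → (Fin (ar s) → Fin (ar s) → Prop) → Prop) :=
      fun s => inferInstance
    exact Pi.finite
  have hne : Nonempty (Code S ar r) := ⟨fun _ _ _ => True⟩
  refine ⟨r * Nat.card (Code S ar r), fun n hn => ?_⟩
  have key : ∀ R : {R : Interp S ar (Fin n) // IsMod χ R}, ∃ p : Fin n → Fin r, ∀ x y, p x = p y →
      Au R.1 (Equiv.swap x y) := by
    intro R
    obtain ⟨T, hT, hcov⟩ := exists_reps R.1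
    have hTr := h n R.1 T R.2 hT
    choose f hfT hf using hcov
    let e := T.equivFin
    refine ⟨fun x => Fin.castLE hTr (e ⟨f x, hfT x⟩), ?_⟩
    intro x y hxy
    have h1 : e ⟨f x, hfT x⟩ = e ⟨f y, hfT y⟩ := Fin.castLE_injective hTr hxy
    have h2 : f x = f y := congrArg Subtype.val (e.injective h1)
    exact tw_trans (hf x) (h2 ▸ tw_symm (hf y))
  choose p hp using key
  let F : {R : Interp S ar (Fin n) // IsMod χ R} → (Fin n → Fin r) × Code S ar r := fun R =>
    (p R, fun s f e => ∃ t, p R ∘ t = f ∧ (∀ i j, e i j ↔ t i = t j) ∧ R.1 s t)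
  have himp : ∀ R R' : {R : Interp S ar (Fin n) // IsMod χ R}, F R = F R' → ∀ s t, R.1 s t →
      R'.1 s t := by
    intro R R' hF s t ht
    have h1 : p R = p R' := congrArg Prod.fst hF
    have h2 : (F R).2 = (F R').2 := congrArg Prod.snd hF
    have h3 : (F R).2 s (p R ∘ t) (fun i j => t i = t j) := ⟨t, rfl, fun i j => Iff.rfl, ht⟩
    rw [h2] at h3
    obtain ⟨t', ht', he, hR'⟩ := h3
    refine (atom_congr _ t' t rfl (fun i => ?_) (fun i j => (he i j).symm)).1 hR'
    refine hp R' _ _ ?_
    have h4 := congrFun ht' i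
    simp only [Function.comp] at h4
    rw [h4, h1]
  have hinj : Function.Injective F := by
    intro R R' hF
    apply Subtype.ext
    funext s t
    exact propext ⟨himp R R' hF s t, himp R' R hF.symm s t⟩
  have h1 : count χ n ≤ Nat.card ((Fin n → Fin r) × Code S ar r) :=
    Nat.card_le_card_of_injective F hinj
  rw [Nat.card_prod, Nat.card_eq_fintype_card, Fintype.card_fun, Fintype.card_fin,
    Fintype.card_fin] at h1
  refine h1.trans ?_
  rw [mul_pow]
  refine Nat.mul_le_mul_left _ ?_
  exact Nat.le_self_pow (by omega) _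

/-- the spectrum is finite or cofinite -/
theorem spec_few {χ : (RelLang S ar).Sentence} {r : ℕ}
    (h : ∀ (n : ℕ) (R : Interp S ar (Fin n)) (T : Finset (Fin n)), IsMod χ R → NT R T → T.card ≤ r) :
    ∃ n0, (∀ n, n0 ≤ n → ¬ ∃ R : Interp S ar (Fin n), IsMod χ R) ∨
      ∀ n, n0 ≤ n → ∃ R : Interp S ar (Fin n), IsMod χ R := by
  classical
  set q := qd χ + 1 with hq
  by_cases hex : ∃ n, r * q < n ∧ ∃ R : Interp S ar (Fin n), IsMod χ R
  swap
  · refine ⟨r * q + 1, Or.inl fun n hn hR => hex ⟨n, by omega, hR⟩⟩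
  obtain ⟨n, hn, R, hR⟩ := hex
  refine ⟨n, Or.inr fun m hm => ?_⟩
  obtain ⟨T, hT, hcov⟩ := exists_reps R
  have hTr := h n R T hR hT
  choose f hfT hf using hcov
  -- a large class
  obtain ⟨y, -, hy⟩ : ∃ y ∈ T, q < ((Finset.univ : Finset (Fin n)).filter fun x => f x = y).card := by
    apply Finset.exists_lt_card_fiber_of_mul_lt_card_of_maps_to (fun x _ => hfT x)
    rw [Finset.card_univ, Fintype.card_fin]
    exact lt_of_le_of_lt (Nat.mul_le_mul_right q hTr) hn
  obtain ⟨K, hK, hKc⟩ := Finset.exists_subset_card_eq hy.le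
  have htw : ∀ u v, u ∈ K → v ∈ K → Au R (Equiv.swap u v) := by
    intro u v hu hv
    have h1 := (Finset.mem_filter.1 (hK hu)).2
    have h2 := (Finset.mem_filter.1 (hK hv)).2
    have h3 := hf u
    have h4 := hf v
    rw [h1] at h3
    rw [h2] at h4
    exact tw_trans h3 (tw_symm h4)
  let e := K.equivFinOfCardEq hKc
  let u : Fin q × Fin 1 → Fin n := fun p => (e.symm p.1 : Fin n)
  have hu : Function.Injective u := by
    rintro ⟨i, a⟩ ⟨j, b⟩ hij
    have h1 : e.symm i = e.symm j := Subtype.ext hij
    exact Prod.ext (e.symm.injective h1) (Subsingleton.elim _ _)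
  have h9 := Pool.Agent.Helper38.MC.pump χ R hR (q := q) (by omega) (by omega) u hu (by
    intro π σ _ hσ s t
    refine Helper6.QG.sup_of_twin (C := Kᶜ) (fun a b ha hb => ?_) σ (fun c hc => ?_) t
    · rw [Finset.mem_compl, not_not] at ha hb
      exact htw a b ha hb s
    · apply hσ
      intro p hp
      rw [Finset.mem_compl] at hc
      apply hc
      rw [← hp]
      exact (e.symm p.1).2) (m - n)
  have hnm : n + 1 * (m - n) = m := by omega
  rw [hnm] at h9
  exact h9

end Pool.Agent.Helper83.FM
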