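import Mathlib

/-!
Independent sets in a relational structure all of whose twin classes are small.
-/

set_option autoImplicit false

namespace Pool.Agent.Helper83.FM

variable {M ι : Type*} {k : ℕ}

/-- the tuple `s` with `x` put in the empty places -/
def fill (s : Fin k → Option M) (x : M) : Fin k → M := fun j => (s j).getD x

/-- `x` and `y` have the same type over `W` -/
def Sim (R : ι → (Fin k → M) → Prop) (W : Finset M) (x y : M) : Prop :=
  ∀ i (s : Fin k → Option M), (∀ j w, s j = some w → w ∈ W) → (R i (fill s x) ↔ R i (fill s y))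

lemma Sim.refl {R : ι → (Fin k → M) → Prop} {W : Finset M} (x : M) : Sim R W x x :=
  fun _ _ _ => Iff.rfl

lemma Sim.symm {R : ι → (Fin k → M) → Prop} {W : Finset M} {x y : M} (h : Sim R W x y) :
    Sim R W y x := fun i s hs => (h i s hs).symm

lemma Sim.trans {R : ι → (Fin k → M) → Prop} {W : Finset M} {x y z : M} (h : Sim R W x y)
    (h' : Sim R W y z) : Sim R W x z := fun i s hs => (h i s hs).trans (h' i s hs)

lemma Sim.mono {R : ι → (Fin k → M) → Prop} {W W' : Finset M} {x y : M} (h : Sim R W' x y)
    (hW : W ⊆ W') : Sim R W x y := fun i s hs => h i s fun j w hj => hW (hs j w hj)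

/-- the set `A` is separated by `W` -/
def Sep (R : ι → (Fin k → M) → Prop) (W A : Finset M) : Prop :=
  ∀ x ∈ A, ∀ y ∈ A, x ≠ y → ¬ Sim R W x y

lemma Sep.mono {R : ι → (Fin k → M) → Prop} {W W' A : Finset M} (h : Sep R W A) (hW : W ⊆ W') :
    Sep R W' A := fun x hx y hy hxy hs => h x hx y hy hxy (hs.mono hW)

lemma Sep.sub {R : ι → (Fin k → M) → Prop} {W A A' : Finset M} (h : Sep R W A) (hA : A' ⊆ A) :
    Sep R W A' := fun x hx y hy => h x (hA hx) y (hA hy)

variable [Fintype M] [DecidableEq M]

/-- independent sets -/
def Ind (R : ι → (Fin k → M) → Prop) (A : Finset M) : Prop := Sep R Aᶜ A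

/-- the entries of `s` -/
def ent (s : Fin k → Option M) : Finset M := Finset.univ.filter fun w => ∃ j, s j = some w

lemma mem_ent {s : Fin k → Option M} {w : M} : w ∈ ent s ↔ ∃ j, s j = some w := by
  simp [ent]

lemma ent_card_le (s : Fin k → Option M) (J : Finset (Fin k)) (hJ : ∀ j ∉ J, s j = none) :
    (ent s).card ≤ J.card := by
  classical
  have h1 : ent s ⊆ (J.image s).eraseNone := by
    intro w hw
    obtain ⟨j, hj⟩ := mem_ent.1 hw
    rw [Finset.mem_eraseNone, Finset.mem_image]
    refine ⟨j, ?_, hj⟩
    by_contra h2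
    rw [hJ j h2] at hj
    simp at hj
  refine (Finset.card_le_card h1).trans ?_
  exact (Finset.card_eraseNone_le _).trans Finset.card_image_le

lemma ent_card (s : Fin k → Option M) : (ent s).card ≤ k := by
  have h := ent_card_le s Finset.univ (fun j hj => absurd (Finset.mem_univ j) hj)
  simpa using h

lemma ent_card_lt (s : Fin k → Option M) (h : ∃ j, s j = none) : (ent s).card < k := by
  obtain ⟨j0, hj0⟩ := h
  have h := ent_card_le s (Finset.univ.erase j0) (fun j hj => by
    have h1 : j = j0 := by
      by_contra h2
      exact hj (Finset.mem_erase.2 ⟨h2, Finset.mem_univ j⟩)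
    rw [h1, hj0])
  have h2 : (Finset.univ.erase j0).card < (Finset.univ : Finset (Fin k)).card :=
    Finset.card_erase_lt_of_mem (Finset.mem_univ j0)
  have h3 : (Finset.univ : Finset (Fin k)).card = k := by simp
  omega

/-- an independent set is separated by few points -/
lemma exists_sep (R : ι → (Fin k → M) → Prop) {A : Finset M} (hA : Ind R A) :
    ∃ W : Finset M, W ⊆ Aᶜ ∧ W.card ≤ k * A.card ∧ Sep R W A := by
  have key : ∀ j ≤ A.card, ∃ W B : Finset M, W ⊆ Aᶜ ∧ W.card ≤ k * j ∧ B ⊆ A ∧ B.card = j ∧
      Sep R W B := by
    intro j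
    induction j with
    | zero =>
      intro _
      refine ⟨∅, ∅, by simp, by simp, by simp, by simp, ?_⟩
      intro x hx
      simp at hx
    | succ j ih =>
      intro hj
      obtain ⟨W, B, hW, hWc, hB, hBc, hs⟩ := ih (by omega)
      obtain ⟨x, hxA, hxB⟩ : ∃ x ∈ A, x ∉ B := by
        by_contra hcon
        push Not at hcon
        have := Finset.card_le_card (show A ⊆ B from fun x hx => hcon x hx)
        omega
      by_cases hx : ∃ y ∈ B, Sim R W x y
      · obtain ⟨y, hy, hxy⟩ := hx
        have hne : x ≠ y := fun h => hxB (h ▸ hy)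
        have h1 := hA x hxA y (hB hy) hne
        unfold Sim at h1
        push Not at h1
        obtain ⟨i, s, hs1, hs2⟩ := h1
        refine ⟨W ∪ ent s, insert x B, ?_, ?_, ?_, ?_, ?_⟩
        · refine Finset.union_subset hW ?_
          intro w hw
          obtain ⟨j, hj⟩ := mem_ent.1 hw
          exact hs1 j w hj
        · refine (Finset.card_union_le _ _).trans ?_
          have := ent_card s
          rw [Nat.mul_succ]
          omega
        · exact Finset.insert_subset hxA hB
        · rw [Finset.card_insert_of_notMem hxB, hBc]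
        · have hxy' : ¬ Sim R (W ∪ ent s) x y := by
            intro h
            have h2 := h i s (fun j w hj => Finset.mem_union_right _ (mem_ent.2 ⟨j, hj⟩))
            tauto
          have hxz : ∀ z ∈ B, ¬ Sim R (W ∪ ent s) x z := by
            intro z hz h
            by_cases hyz : y = z
            · exact hxy' (hyz ▸ h)
            · exact hs y hy z hz hyz (hxy.symm.trans (h.mono Finset.subset_union_left))
          intro u hu v hv huv h
          rcases Finset.mem_insert.1 hu with e | hu'
          · rcases Finset.mem_insert.1 hv with e' | hv'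
            · exact huv (e.trans e'.symm)
            · exact hxz v hv' (e ▸ h)
          · rcases Finset.mem_insert.1 hv with e' | hv'
            · exact hxz u hu' (e' ▸ h.symm)
            · exact hs u hu' v hv' huv (h.mono Finset.subset_union_left)
      · push Not at hx
        refine ⟨W, insert x B, hW, ?_, Finset.insert_subset hxA hB, ?_, ?_⟩
        · refine hWc.trans (Nat.mul_le_mul_left _ (Nat.le_succ _))
        · rw [Finset.card_insert_of_notMem hxB, hBc]
        · intro u hu v hv huv h
          rcases Finset.mem_insert.1 hu with e | hu'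
          · rcases Finset.mem_insert.1 hv with e' | hv'
            · exact huv (e.trans e'.symm)
            · exact hx v hv' (e ▸ h)
          · rcases Finset.mem_insert.1 hv with e' | hv'
            · exact hx u hu' (e' ▸ h.symm)
            · exact hs u hu' v hv' huv h
  obtain ⟨W, B, hW, hWc, hB, hBc, hs⟩ := key A.card le_rfl
  have : B = A := Finset.eq_of_subset_of_card_le hB (by omega)
  subst this
  exact ⟨W, hW, hWc, hs⟩

open Classical in
/-- the class of `a` off `V` -/
noncomputable def K (R : ι → (Fin k → M) → Prop) (V : Finset M) (a : M) : Finset M :=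
  Finset.univ.filter fun y => y ∉ V ∧ Sim R V y a

lemma mem_K {R : ι → (Fin k → M) → Prop} {V : Finset M} {a y : M} :
    y ∈ K R V a ↔ y ∉ V ∧ Sim R V y a := by
  simp [K]

/-- `x` and `x'` are not distinguished by tuples off `x`, `x'` and `Q` -/
def Good (R : ι → (Fin k → M) → Prop) (Q : Finset M) (x x' : M) : Prop :=
  ∀ i (s : Fin k → Option M), (∃ j, s j = none) → x ∉ ent s → x' ∉ ent s → Disjoint (ent s) Q →
    (R i (fill s x) ↔ R i (fill s x'))

/-- one stage -/
lemma stage (R : ι → (Fin k → M) → Prop) {μ : ℕ} (hμ : ∀ A, Ind R A → A.card ≤ μ) (Z : Finset M) :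
    ∃ V Q A : Finset M, Z ⊆ V ∧ V.card ≤ Z.card + k * μ ∧ A.card ≤ μ ∧ Disjoint Q V ∧
      Q.card ≤ k * μ ∧ (∀ y ∉ V, ∃ a ∈ A, Sim R V y a) ∧
      ∀ x x', x ∉ V → x' ∉ V → Sim R V x x' → Good R Q x x' := by
  classical
  -- a maximal independent set off `Z`
  obtain ⟨A, hAm, hAmax⟩ : ∃ A ∈ (Finset.univ.filter fun A : Finset M => Ind R A ∧ Disjoint A Z),
      ∀ A' ∈ (Finset.univ.filter fun A : Finset M => Ind R A ∧ Disjoint A Z),
        A'.card ≤ A.card := by
    apply Finset.exists_max_image
    refine ⟨∅, ?_⟩
    rw [Finset.mem_filter]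
    refine ⟨Finset.mem_univ _, ?_, by simp⟩
    intro x hx
    simp at hx
  have hA : Ind R A ∧ Disjoint A Z := (Finset.mem_filter.1 hAm).2
  have hmax : ∀ A', Ind R A' → Disjoint A' Z → A'.card ≤ A.card := fun A' h h' =>
    hAmax A' (Finset.mem_filter.2 ⟨Finset.mem_univ _, h, h'⟩)
  obtain ⟨W, hW, hWc, hWs⟩ := exists_sep R hA.1
  have hAμ := hμ A hA.1
  let V := W ∪ Z
  have hVs : Sep R V A := hWs.mono Finset.subset_union_left
  have hAV : Disjoint A V := by
    refine Finset.disjoint_union_right.2 ⟨?_, hA.2⟩
    rw [Finset.disjoint_right]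
    intro w hw
    exact Finset.mem_compl.1 (hW hw)
  -- sets separated over `V` off `V` are small
  have hsmall : ∀ T : Finset M, Disjoint T V → Sep R Tᶜ T → T.card ≤ A.card := by
    intro T hT hs
    exact hmax T hs (hT.mono_right Finset.subset_union_right)
  have hcov : ∀ y ∉ V, ∃ a ∈ A, Sim R V y a := by
    intro y hy
    by_contra hcon
    push Not at hcon
    have hyA : y ∉ A := fun h => hcon y h (Sim.refl y)
    have hd : Disjoint (insert y A) V := by
      rw [Finset.disjoint_insert_left]
      exact ⟨hy, hAV⟩
    have h1 := hsmall (insert y A) hd (by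
      have h2 : Sep R V (insert y A) := by
        intro u hu v hv huv h
        rcases Finset.mem_insert.1 hu with e | hu'
        · rcases Finset.mem_insert.1 hv with e' | hv'
          · exact huv (e.trans e'.symm)
          · exact hcon v hv' (e ▸ h)
        · rcases Finset.mem_insert.1 hv with e' | hv'
          · exact hcon u hu' (e' ▸ h.symm)
          · exact hVs u hu' v hv' huv h
      refine h2.mono ?_
      intro v hv
      rw [Finset.mem_compl]
      intro h3
      exact (Finset.disjoint_left.1 hd h3) hv)
    rw [Finset.card_insert_of_notMem hyA] at h1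
    omega
  let Q := (A.filter fun a => (K R V a).card < k).biUnion (K R V)
  refine ⟨V, Q, A, Finset.subset_union_right, ?_, hAμ, ?_, ?_, hcov, ?_⟩
  · refine (Finset.card_union_le _ _).trans ?_
    have := Nat.mul_le_mul_left k hAμ
    omega
  · rw [Finset.disjoint_left]
    intro y hy
    obtain ⟨a, _, ha⟩ := Finset.mem_biUnion.1 hy
    exact (mem_K.1 ha).1
  · refine Finset.card_biUnion_le.trans ?_
    refine (Finset.sum_le_card_nsmul _ _ k ?_).trans ?_
    · intro a ha
      exact (Finset.mem_filter.1 ha).2.le
    · rw [smul_eq_mul, mul_comm]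
      exact Nat.mul_le_mul_left k ((Finset.card_filter_le _ _).trans hAμ)
  · intro x x' hx hx' hxx i s hnone hsx hsx' hsQ
    by_cases hne : x = x'
    · rw [hne]
    obtain ⟨a0, ha0, hxa0⟩ := hcov x hx
    have hxa0' : Sim R V x' a0 := hxx.symm.trans hxa0
    -- a representative of each other class off the entries of `s`
    have hrep : ∀ a ∈ A, ∃ y ∈ K R V a, y ∉ ent s := by
      intro a ha
      by_contra hcon
      push Not at hcon
      have h1 : (K R V a).card < k :=
        lt_of_le_of_lt (Finset.card_le_card (fun y hy => hcon y hy)) (ent_card_lt s hnone)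
      have h2 : a ∈ K R V a := mem_K.2 ⟨Finset.disjoint_left.1 hAV ha, Sim.refl a⟩
      have h3 : a ∈ Q := Finset.mem_biUnion.2 ⟨a, Finset.mem_filter.2 ⟨ha, h1⟩, h2⟩
      exact Finset.disjoint_left.1 hsQ (hcon a h2) h3
    choose! f hfK hfs using hrep
    let F := (A.erase a0).image f
    have hlab : ∀ a ∈ A, Sim R V (f a) a := fun a ha => (mem_K.1 (hfK a ha)).2
    have hFx : ∀ u ∈ F, ∃ a ∈ A, a ≠ a0 ∧ Sim R V u a ∧ u ∉ V ∧ u ∉ ent s ∧ u = f a := by
      intro u hu
      obtain ⟨a, ha, rfl⟩ := Finset.mem_image.1 hu
      have ha' := Finset.mem_of_mem_erase ha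
      exact ⟨a, ha', Finset.ne_of_mem_erase ha, hlab a ha', (mem_K.1 (hfK a ha')).1, hfs a ha', rfl⟩
    have hFsep : ∀ u ∈ F, ∀ y, Sim R V y a0 → ¬ Sim R V u y := by
      intro u hu y hy h
      obtain ⟨a, ha, ha0', hua, -, -, -⟩ := hFx u hu
      exact hVs a ha a0 ha0 ha0' (hua.symm.trans (h.trans hy))
    have hFF : Sep R V F := by
      intro u hu v hv huv h
      obtain ⟨a, ha, -, hua, -, -, ea⟩ := hFx u hu
      obtain ⟨b, hb, -, hvb, -, -, eb⟩ := hFx v hv
      have hab : a ≠ b := by
        rintro rfl
        exact huv (ea.trans eb.symm)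
      exact hVs a ha b hb hab (hua.symm.trans (h.trans hvb))
    have hxF : x ∉ F := fun h => hFsep x h x hxa0 (Sim.refl x)
    have hxF' : x' ∉ F := fun h => hFsep x' h x' hxa0' (Sim.refl x')
    have hFc : F.card = A.card - 1 := by
      rw [Finset.card_image_of_injOn, Finset.card_erase_of_mem ha0]
      intro a ha b hb hab
      by_contra hne'
      have ha' := Finset.mem_of_mem_erase ha
      have hb' := Finset.mem_of_mem_erase hb
      refine hVs a ha' b hb' hne' ((hlab a ha').symm.trans ?_)
      have : f a = f b := hab
      rw [this]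
      exact hlab b hb'
    let T := insert x (insert x' F)
    have hTc : T.card = A.card + 1 := by
      have h1 : x ∉ insert x' F := by
        intro h
        rcases Finset.mem_insert.1 h with h | h
        · exact hne h
        · exact hxF h
      have h2 : 0 < A.card := Finset.card_pos.2 ⟨a0, ha0⟩
      rw [Finset.card_insert_of_notMem h1, Finset.card_insert_of_notMem hxF', hFc]
      omega
    have hTV : Disjoint T V := by
      rw [Finset.disjoint_insert_left, Finset.disjoint_insert_left]
      refine ⟨hx, hx', ?_⟩
      rw [Finset.disjoint_left]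
      intro u hu
      obtain ⟨a, -, -, -, h, -, -⟩ := hFx u hu
      exact h
    have hVT : V ⊆ Tᶜ := by
      intro v hv
      rw [Finset.mem_compl]
      intro h3
      exact (Finset.disjoint_left.1 hTV h3) hv
    by_contra hcon
    have hxx' : ¬ Sim R Tᶜ x x' := by
      intro h
      apply hcon
      apply h i s
      intro j w hj
      rw [Finset.mem_compl]
      intro hw
      have hws : w ∈ ent s := mem_ent.2 ⟨j, hj⟩
      rcases Finset.mem_insert.1 hw with rfl | hw
      · exact hsx hws
      · rcases Finset.mem_insert.1 hw with rfl | hw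
        · exact hsx' hws
        · obtain ⟨a, -, -, -, -, h, -⟩ := hFx w hw
          exact h hws
    have hTs : Sep R Tᶜ T := by
      intro u hu v hv huv h
      have h' : Sim R V u v := h.mono hVT
      rcases Finset.mem_insert.1 hu with e | hu1
      · rcases Finset.mem_insert.1 hv with e' | hv1
        · exact huv (e.trans e'.symm)
        · rcases Finset.mem_insert.1 hv1 with e' | hv2
          · rw [e, e'] at h
            exact hxx' h
          · exact hFsep v hv2 u (e ▸ hxa0) h'.symm
      · rcases Finset.mem_insert.1 hu1 with e | hu2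
        · rcases Finset.mem_insert.1 hv with e' | hv1
          · rw [e, e'] at h
            exact hxx' h.symm
          · rcases Finset.mem_insert.1 hv1 with e' | hv2
            · exact huv (e.trans e'.symm)
            · exact hFsep v hv2 u (e ▸ hxa0') h'.symm
        · rcases Finset.mem_insert.1 hv with e' | hv1
          · exact hFsep u hu2 v (e' ▸ hxa0) h'
          · rcases Finset.mem_insert.1 hv1 with e' | hv2
            · exact hFsep u hu2 v (e' ▸ hxa0') h'
            · exact hFF u hu2 v hv2 huv h'
    have := hsmall T hTV hTs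
    omega

/-- `m` stages -/
lemma stages (R : ι → (Fin k → M) → Prop) {μ : ℕ} (hμ : ∀ A, Ind R A → A.card ≤ μ) (m : ℕ) :
    ∃ (Z : Finset M) (Q : ℕ → Finset M), Z.card ≤ 2 * m * (k * μ) ∧ (∀ j < m, Q j ⊆ Z) ∧
      (∀ i j, i < j → j < m → Disjoint (Q i) (Q j)) ∧
      ∀ x x', x ∉ Z → x' ∉ Z → Sim R Z x x' → ∀ j < m, Good R (Q j) x x' := by
  induction m with
  | zero =>
    refine ⟨∅, fun _ => ∅, by simp, by simp, by simp, ?_⟩
    intro x x' _ _ _ j hj
    omega
  | succ m ih =>
    obtain ⟨Z, Q, hZ, hQ, hd, hg⟩ := ih
    obtain ⟨V, P, A, hZV, hVc, -, hPV, hPc, -, hgood⟩ := stage R hμ Z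
    refine ⟨V ∪ P, fun j => if j < m then Q j else P, ?_, ?_, ?_, ?_⟩
    · refine (Finset.card_union_le _ _).trans ?_
      have : 2 * (m + 1) * (k * μ) = 2 * m * (k * μ) + k * μ + k * μ := by ring
      omega
    · intro j hj
      by_cases hjm : j < m
      · simp only [hjm, if_true]
        exact (hQ j hjm).trans (hZV.trans Finset.subset_union_left)
      · simp only [hjm, if_false]
        exact Finset.subset_union_right
    · intro i j hij hj
      have him : i < m := by omega
      simp only [him, if_true]
      by_cases hjm : j < m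
      · simp only [hjm, if_true]
        exact hd i j hij hjm
      · simp only [hjm, if_false]
        exact (hPV.mono_right ((hQ i him).trans hZV)).symm
    · intro x x' hx hx' hxx j hj
      rw [Finset.mem_union, not_or] at hx hx'
      by_cases hjm : j < m
      · simp only [hjm, if_true]
        exact hg x x' (fun h => hx.1 (hZV h)) (fun h => hx'.1 (hZV h))
          (hxx.mono (hZV.trans Finset.subset_union_left)) j hjm
      · simp only [hjm, if_false]
        exact hgood x x' hx.1 hx'.1 (hxx.mono Finset.subset_union_left)

/-- the transposition of `x` and `y` is an automorphism -/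
def Tw (R : ι → (Fin k → M) → Prop) (x y : M) : Prop := ∀ i t, R i (Equiv.swap x y ∘ t) ↔ R i t

/-- a large set of points which are not distinguished by tuples off the two points consists of
twins -/
lemma tw_of_good (R : ι → (Fin k → M) → Prop) (C : Finset M) (hC : k < C.card)
    (h : ∀ x ∈ C, ∀ y ∈ C, Good R ∅ x y) : ∀ x ∈ C, ∀ y ∈ C, Tw R x y := by
  classical
  have h1 : ∀ x ∈ C, ∀ y ∈ C, ∀ i (t : Fin k → M), (∀ j, t j ≠ y) →
      (R i (fun j => if t j = x then y else t j) ↔ R i t) := by
    intro x hx y hy i t ht
    by_cases hxt : ∃ j, t j = x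
    · let s : Fin k → Option M := fun j => if t j = x then none else some (t j)
      have e1 : fill s x = t := by
        funext j
        simp only [fill, s]
        by_cases hj : t j = x
        · simp [hj]
        · simp [hj]
      have e2 : fill s y = fun j => if t j = x then y else t j := by
        funext j
        simp only [fill, s]
        by_cases hj : t j = x
        · simp [hj]
        · simp [hj]
      have h2 := h x hx y hy i s (by
        obtain ⟨j, hj⟩ := hxt
        exact ⟨j, by simp [s, hj]⟩) (by
        rw [mem_ent]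
        rintro ⟨j, hj⟩
        simp only [s] at hj
        by_cases hjx : t j = x
        · simp [hjx] at hj
        · simp only [hjx, if_false, Option.some.injEq] at hj) (by
        rw [mem_ent]
        rintro ⟨j, hj⟩
        simp only [s] at hj
        by_cases hjx : t j = x
        · simp [hjx] at hj
        · simp only [hjx, if_false, Option.some.injEq] at hj
          exact ht j hj) (Finset.disjoint_empty_right _)
      rw [e1, e2] at h2
      exact h2.symm
    · push Not at hxt
      have : (fun j => if t j = x then y else t j) = t := by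
        funext j
        simp [hxt j]
      rw [this]
  intro x hx y hy i t
  by_cases hxy : x = y
  · subst hxy
    simp
  obtain ⟨z, hz, hzt⟩ : ∃ z ∈ C, ∀ j, t j ≠ z := by
    by_contra hcon
    push Not at hcon
    have h2 : C ⊆ Finset.univ.image t := by
      intro z hz
      obtain ⟨j, hj⟩ := hcon z hz
      exact Finset.mem_image.2 ⟨j, Finset.mem_univ j, hj⟩
    have h3 := Finset.card_le_card h2
    have h4 : (Finset.univ.image t).card ≤ (Finset.univ : Finset (Fin k)).card :=
      Finset.card_image_le
    have h5 : (Finset.univ : Finset (Fin k)).card = k := by simp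
    omega
  by_cases hyt : ∃ j, t j = y
  swap
  · push Not at hyt
    have e : (⇑(Equiv.swap x y) ∘ t) = fun j => if t j = x then y else t j := by
      funext j
      simp only [Function.comp]
      by_cases hjx : t j = x
      · simp [hjx]
      · rw [Equiv.swap_apply_of_ne_of_ne hjx (hyt j)]
        simp [hjx]
    rw [e]
    exact h1 x hx y hy i t hyt
  by_cases hxt : ∃ j, t j = x
  swap
  · push Not at hxt
    have e : (⇑(Equiv.swap x y) ∘ t) = fun j => if t j = y then x else t j := by
      funext j
      simp only [Function.comp]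
      by_cases hjy : t j = y
      · simp [hjy]
      · rw [Equiv.swap_apply_of_ne_of_ne (hxt j) hjy]
        simp [hjy]
    rw [e]
    exact h1 y hy x hx i t hxt
  have hzx : z ≠ x := by
    rintro rfl
    obtain ⟨j, hj⟩ := hxt
    exact hzt j hj
  have hzy : z ≠ y := by
    rintro rfl
    obtain ⟨j, hj⟩ := hyt
    exact hzt j hj
  have hyx : y ≠ x := fun h => hxy h.symm
  -- x -> z, y -> x, z -> y
  have h10 := h1 x hx z hz i t hzt
  have h11 := h1 y hy x hx i (fun j => if t j = x then z else t j) (by
    intro j hj
    by_cases hjx : t j = x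
    · simp only [hjx, if_true] at hj
      exact hzx hj
    · simp only [hjx, if_false] at hj)
  have h12 := h1 z hz y hy i (fun j => if (if t j = x then z else t j) = y then x
      else (if t j = x then z else t j)) (by
    intro j hj
    by_cases h6 : (if t j = x then z else t j) = y
    · simp only [h6, if_true] at hj
      exact hxy hj
    · simp only [h6, if_false] at hj)
  rw [← h10, ← h11, ← h12]
  have e : (⇑(Equiv.swap x y) ∘ t) = fun j => if (if (if t j = x then z else t j) = y then x
      else (if t j = x then z else t j)) = z then y else (if (if t j = x then z else t j) = y then x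
      else (if t j = x then z else t j)) := by
    funext j
    simp only [Function.comp]
    by_cases hjx : t j = x
    · rw [hjx, Equiv.swap_apply_left]
      simp [hzy]
    · by_cases hjy : t j = y
      · rw [hjy, Equiv.swap_apply_right]
        simp [hyx, hzx.symm]
      · rw [Equiv.swap_apply_of_ne_of_ne hjx hjy]
        simp [hjx, hjy, hzt j]
  rw [e]

/-- **The independent set.** If all sets of twins are small then there is an independent set with
a positive proportion of all points. -/
theorem exists_ind (R : ι → (Fin k → M) → Prop) (q : ℕ) (hq : k ≤ q)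
    (htw : ∀ C : Finset M, (∀ x ∈ C, ∀ y ∈ C, Tw R x y) → C.card ≤ q) :
    ∃ A : Finset M, Ind R A ∧ Fintype.card M ≤ (2 * k * k + k + q) * A.card := by
  classical
  obtain ⟨A0, hA0m, hA0max⟩ : ∃ A ∈ (Finset.univ.filter fun A : Finset M => Ind R A),
      ∀ A' ∈ (Finset.univ.filter fun A : Finset M => Ind R A), A'.card ≤ A.card := by
    apply Finset.exists_max_image
    refine ⟨∅, ?_⟩
    rw [Finset.mem_filter]
    refine ⟨Finset.mem_univ _, ?_⟩
    intro x hx
    simp at hx
  refine ⟨A0, (Finset.mem_filter.1 hA0m).2, ?_⟩
  set μ := A0.card with hμdef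
  have hμ : ∀ A, Ind R A → A.card ≤ μ := fun A h =>
    hA0max A (Finset.mem_filter.2 ⟨Finset.mem_univ _, h⟩)
  obtain ⟨Z, Q, hZ, hQ, hd, hg⟩ := stages R hμ k
  obtain ⟨V, P, A, hZV, hVc, hAc, -, -, hcov, -⟩ := stage R hμ Z
  have hgood : ∀ x x', x ∉ V → x' ∉ V → Sim R V x x' → Good R ∅ x x' := by
    intro x x' hx hx' hxx i s hnone hsx hsx' _
    obtain ⟨j, hj, hjd⟩ : ∃ j < k, Disjoint (ent s) (Q j) := by
      by_contra hcon
      push Not at hcon
      have h1 : ∀ j : Fin k, ∃ w, w ∈ ent s ∧ w ∈ Q j := by
        intro j
        have h2 := hcon j j.2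
        rw [Finset.not_disjoint_iff] at h2
        exact h2
      choose w hw hw' using h1
      have hinj : Function.Injective w := by
        intro i j hij
        by_contra hne
        rcases lt_or_gt_of_ne (fun h => hne (Fin.ext h) : (i : ℕ) ≠ j) with h3 | h3
        · exact Finset.disjoint_left.1 (hd i j h3 j.2) (hw' i) (hij ▸ hw' j)
        · exact Finset.disjoint_left.1 (hd j i h3 i.2) (hw' j) (hij ▸ hw' i)
      have h4 : (Finset.univ.image w).card = k := by
        rw [Finset.card_image_of_injective _ hinj]
        simp
      have h5 : Finset.univ.image w ⊆ ent s := by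
        intro y hy
        obtain ⟨j, _, rfl⟩ := Finset.mem_image.1 hy
        exact hw j
      have h6 := Finset.card_le_card h5
      have h7 := ent_card_lt s hnone
      omega
    exact hg x x' (fun h => hx (hZV h)) (fun h => hx' (hZV h)) (hxx.mono hZV) j hj i s hnone hsx
      hsx' hjd
  have hK : ∀ a ∈ A, (K R V a).card ≤ q := by
    intro a _
    by_contra hcon
    push Not at hcon
    have h1 := tw_of_good R (K R V a) (lt_of_le_of_lt hq hcon) (by
      intro x hx y hy
      have h2 := mem_K.1 hx
      have h3 := mem_K.1 hy
      exact hgood x y h2.1 h3.1 (h2.2.trans h3.2.symm))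
    exact absurd (htw _ h1) (by omega)
  have hun : (Finset.univ : Finset M) ⊆ V ∪ A.biUnion (K R V) := by
    intro y _
    rw [Finset.mem_union]
    by_cases hy : y ∈ V
    · exact Or.inl hy
    · right
      obtain ⟨a, ha, hya⟩ := hcov y hy
      exact Finset.mem_biUnion.2 ⟨a, ha, mem_K.2 ⟨hy, hya⟩⟩
  have h1 := Finset.card_le_card hun
  have h2 := Finset.card_union_le V (A.biUnion (K R V))
  have h3 : (A.biUnion (K R V)).card ≤ A.card * q := by
    refine Finset.card_biUnion_le.trans ?_
    have := Finset.sum_le_card_nsmul A (fun a => (K R V a).card) q hK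
    rwa [smul_eq_mul] at this
  have h4 : A.card * q ≤ μ * q := Nat.mul_le_mul_right q hAc
  rw [Finset.card_univ] at h1
  have h5 : (2 * k * k + k + q) * μ = 2 * k * (k * μ) + k * μ + μ * q := by ring
  omega

end Pool.Agent.Helper83.FM
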