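import Pool.Agent.Helper83.FM.Few
import Pool.Agent.Helper31.FM.Min
import Pool.Agent.Helper40.MC.Defs

/-!
The first jump of the number of models, for all arities.
-/

set_option autoImplicit false

namespace Pool.Agent.Helper83.FM

open FirstOrder FirstOrder.Language Pool.Agent.Helper20.Spectra
open Pool.Agent.Helper58.QD
open Pool.Agent.Helper31.QD (Au qd)

variable {S : Type} {ar : S → ℕ}

/-- twins of the padded relations -/
lemma tw_of_pad {n k : ℕ} (hk : ∀ s, ar s ≤ k) {R : Interp S ar (Fin n)} {x y : Fin n}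
    (h : Tw (pad hk R) x y) : Au R (Equiv.swap x y) := by
  intro s t
  have h1 := h s (fun j => if hj : (j : ℕ) < ar s then t ⟨j, hj⟩ else x)
  unfold pad at h1
  have e1 : (fun i : Fin (ar s) => (fun j : Fin k => if hj : (j : ℕ) < ar s then t ⟨j, hj⟩ else x)
      (Fin.castLE (hk s) i)) = t := by
    funext i
    simp
  have e2 : (fun i : Fin (ar s) => (Equiv.swap x y ∘ fun j : Fin k => if hj : (j : ℕ) < ar s
      then t ⟨j, hj⟩ else x) (Fin.castLE (hk s) i)) = Equiv.swap x y ∘ t := by
    funext i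
    simp
  rw [e1, e2] at h1
  exact h1

/-- **The first jump.** For every first-order sentence, of any arities, either it has at most
`C ^ n` models on `n` points and its spectrum is finite or cofinite, or it has at least
`n ^ (n / D)` models on `n` points for infinitely many `n`. -/
theorem jump [Finite S] (χ : (RelLang S ar).Sentence) :
    ((∃ C, ∀ n, 1 ≤ n → count χ n ≤ C ^ n) ∧
      ∃ n0, (∀ n, n0 ≤ n → ¬ ∃ R : Interp S ar (Fin n), IsMod χ R) ∨
        ∀ n, n0 ≤ n → ∃ R : Interp S ar (Fin n), IsMod χ R) ∨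
    ∃ D, 1 ≤ D ∧ ∀ N, ∃ n, N ≤ n ∧ n ^ n ≤ count χ n ^ D := by
  classical
  obtain ⟨k, hk⟩ : ∃ k, ∀ s, ar s ≤ k := by
    have := Fintype.ofFinite S
    exact ⟨Finset.univ.sup ar, fun s => Finset.le_sup (f := ar) (Finset.mem_univ s)⟩
  by_cases h : ∀ r, ∃ (n : ℕ) (R : Interp S ar (Fin n)) (T : Finset (Fin n)), IsMod χ R ∧
      r ≤ T.card ∧ ∀ x ∈ T, ∀ y ∈ T, x ≠ y → ¬ Au R (Equiv.swap x y)
  · right
    set q := k + qd χ + 3 with hq
    set D := 2 * k * k + k + q with hD
    refine ⟨2 * D, by omega, fun N => ?_⟩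
    obtain ⟨n, hn, R, hR, hcl⟩ := Pool.Agent.Helper31.FM.min_model hk h (max N (9 ^ D))
    refine ⟨n, (le_max_left _ _).trans hn, ?_⟩
    obtain ⟨A, hA, hAn⟩ := exists_ind (pad hk R) q (by omega) (fun C hC =>
      hcl C fun x hx y hy => tw_of_pad hk (hC x hx y hy))
    rw [Fintype.card_fin] at hAn
    exact many_models hk hR hA hAn ((le_max_right _ _).trans hn)
  · left
    push Not at h
    obtain ⟨r, hr⟩ := h
    have hr' : ∀ (n : ℕ) (R : Interp S ar (Fin n)) (T : Finset (Fin n)), IsMod χ R → NT R T →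
        T.card ≤ r := by
      intro n R T hR hT
      by_contra hcon
      push Not at hcon
      obtain ⟨x, hx, y, hy, hxy, h1⟩ := hr n R T hR hcon.le
      exact hT x hx y hy hxy h1
    exact ⟨count_le hr', spec_few hr'⟩

/-- the clause for all arities -/
theorem stmtJump : Pool.Agent.Helper40.MC.StmtJump := by
  intro S _ ar χ
  rcases jump χ with ⟨h1, n0, h2 | h2⟩ | h
  · left
    refine ⟨h1, Or.inl ?_⟩
    apply (Set.finite_lt_nat n0).subset
    rintro n ⟨_, hn⟩
    by_contra hcon
    exact h2 n (not_lt.1 hcon) hn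
  · left
    refine ⟨h1, Or.inr ?_⟩
    apply (Set.finite_lt_nat (n0 + 1)).subset
    intro n hn
    by_contra hcon
    have h3 : n0 + 1 ≤ n := not_lt.1 hcon
    exact hn ⟨by omega, h2 n (by omega)⟩
  · exact Or.inr h

end Pool.Agent.Helper83.FM
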