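import Pool.Agent.Helper83.FM.JumpM
import Pool.Agent.Helper40.MC.Chain

/-!
The sharp first jump of the number of models for monadic second-order sentences, all arities.
-/

set_option autoImplicit false

namespace Pool.Agent.Helper83.FM

open FirstOrder FirstOrder.Language Pool.Agent.Helper20.Spectra
open Pool.Agent.Helper58.QD Pool.Agent.Helper29.MW Pool.Agent.Helper14.SS
open Pool.Agent.Helper31.QD (Au resI)
open Pool.Agent.Helper40.MCM (SatM countM specM)

/-- the sharp jump -/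
def StmtJumpM2 : Prop := ∀ (S : Type) [Finite S] (ar : S → ℕ) (φ : SFm (RelLang S ar) 0 0),
  ((∃ C, ∀ n, 1 ≤ n → countM φ n ≤ C ^ n) ∧ ((specM φ).Finite ∨ (specM φ)ᶜ.Finite)) ∨
    ∀ ε : ℝ, 0 < ε → ∀ N : ℕ, ∃ n, N ≤ n ∧ (n : ℝ) ^ ((1 / 2 - ε) * n) ≤ countM φ n

variable {S : Type} {ar : S → ℕ}

/-- blocks of one point are twins -/
lemma twins_of_blocks {n q : ℕ} {R : Interp S ar (Fin n)} {u : Fin q × Fin 1 → Fin n}
    (hu : Function.Injective u)
    (h : ∀ (π : Equiv.Perm (Fin q)) (σ : Equiv.Perm (Fin n)), (∀ i x, σ (u (i, x)) = u (π i, x)) →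
      (∀ z, (∀ p, u p ≠ z) → σ z = z) → Au R σ) :
    ∃ C : Finset (Fin n), C.card = q ∧ ∀ x ∈ C, ∀ y ∈ C, Au R (Equiv.swap x y) := by
  classical
  refine ⟨Finset.univ.image u, ?_, ?_⟩
  · rw [Finset.card_image_of_injective _ hu, Finset.card_univ, Fintype.card_prod,
      Fintype.card_fin, Fintype.card_fin, mul_one]
  · intro x hx y hy
    obtain ⟨⟨i, a⟩, -, rfl⟩ := Finset.mem_image.1 hx
    obtain ⟨⟨j, b⟩, -, rfl⟩ := Finset.mem_image.1 hy
    have hab : b = a := Subsingleton.elim _ _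
    subst hab
    refine h (Equiv.swap i j) _ ?_ ?_
    · intro m c
      have hc : c = b := Subsingleton.elim _ _
      subst hc
      by_cases hmi : m = i
      · subst hmi
        rw [Equiv.swap_apply_left, Equiv.swap_apply_left]
      · by_cases hmj : m = j
        · subst hmj
          rw [Equiv.swap_apply_right, Equiv.swap_apply_right]
        · rw [Equiv.swap_apply_of_ne_of_ne, Equiv.swap_apply_of_ne_of_ne hmi hmj]
          · intro h1
            exact hmi (congrArg Prod.fst (hu h1))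
          · intro h1
            exact hmj (congrArg Prod.fst (hu h1))
    · intro z hz
      exact Equiv.swap_apply_of_ne_of_ne (fun h1 => hz _ h1.symm) (fun h1 => hz _ h1.symm)

theorem stmtJumpM2 : StmtJumpM2 := by
  classical
  intro S _ ar φ
  obtain ⟨ψ, hψ⟩ := Helper6.MC.exists_mfm φ
  have key : ∀ {n : ℕ} (R : Interp S ar (Fin n)), MSat R ψ ↔ SatM φ R :=
    fun {n} R => (hψ (Fin n) R).symm
  obtain ⟨q₁, hD⟩ := dropM ψ
  obtain ⟨q₂, hq₂, hG⟩ := Helper6.MC.pumpM ψ 1
  have hG' : Grow (fun (n : ℕ) (R : Interp S ar (Fin n)) => MSat R ψ) q₂ :=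
    fun n R hR u hu h j => hG le_rfl R hR u hu h j
  have hcnt : ∀ n, cnt (fun (n : ℕ) (R : Interp S ar (Fin n)) => MSat R ψ) n = countM φ n :=
    fun n => Nat.card_congr (Equiv.subtypeEquivRight fun R => key R)
  obtain ⟨k, hk⟩ : ∃ k, ∀ s, ar s ≤ k := by
    have := Fintype.ofFinite S
    exact ⟨Finset.univ.sup ar, fun s => Finset.le_sup (f := ar) (Finset.mem_univ s)⟩
  by_cases h : ∀ r, ∃ (n : ℕ) (R : Interp S ar (Fin n)) (T : Finset (Fin n)), MSat R ψ ∧
      r ≤ T.card ∧ ∀ x ∈ T, ∀ y ∈ T, x ≠ y → ¬ Au R (Equiv.swap x y)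
  · right
    intro ε hε N
    set q := k + q₁ + 3 with hq
    obtain ⟨n₁, hn₁⟩ := Filter.eventually_atTop.1
      ((Helper40.MCM.num_aux 1 (c := 1 / 2 - ε) (ε := ε / 2)
        (by push_cast; linarith)).and (Helper40.MCM.stmtHomA0 S ar 1 (q + 1) (ε / 2) (by linarith)))
    obtain ⟨n, hn, R, hR, hcl⟩ := min_modelQ hD hk h (max N n₁)
    refine ⟨n, (le_max_left _ _).trans hn, ?_⟩
    by_contra hcon
    push Not at hcon
    obtain ⟨hnum, hhom⟩ := hn₁ n ((le_max_right _ _).trans hn)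
    have h1 := hnum (countM φ n) _ hcon.le (Helper40.MCM.factorial_leM ((key R).1 hR))
    obtain ⟨t, ht1, ht2, u, hu, hu'⟩ := hhom R h1
    obtain rfl : t = 1 := le_antisymm ht2 ht1
    obtain ⟨C, hC, hC'⟩ := twins_of_blocks hu hu'
    have := hcl C hC'
    omega
  · left
    push Not at h
    obtain ⟨r, hr⟩ := h
    have hr' : ∀ (n : ℕ) (R : Interp S ar (Fin n)) (T : Finset (Fin n)), MSat R ψ → NT R T →
        T.card ≤ r := by
      intro n R T hR hT
      by_contra hcon
      push Not at hcon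
      obtain ⟨x, hx, y, hy, hxy, h1⟩ := hr n R T hR hcon.le
      exact hT x hx y hy hxy h1
    refine ⟨?_, ?_⟩
    · obtain ⟨C, hC⟩ := count_leQ (Q := fun (n : ℕ) (R : Interp S ar (Fin n)) => MSat R ψ) hr'
      exact ⟨C, fun n hn => hcnt n ▸ hC n hn⟩
    · obtain ⟨n0, h2 | h2⟩ := spec_fewQ hG' hr'
      · left
        apply (Set.finite_lt_nat n0).subset
        rintro n ⟨_, R, hR⟩
        by_contra hcon
        exact h2 n (not_lt.1 hcon) ⟨R, (key R).2 hR⟩
      · right
        apply (Set.finite_lt_nat (n0 + 1)).subset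
        intro n hn
        by_contra hcon
        have h3 : n0 + 1 ≤ n := not_lt.1 hcon
        obtain ⟨R, hR⟩ := h2 n (by omega)
        exact hn ⟨by omega, R, (key R).1 hR⟩

end Pool.Agent.Helper83.FM
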