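import Pool.Agent.Helper83.FM.JumpQ
import Pool.Agent.Helper6.MC.PumpD
import Pool.Agent.Helper40.MC.MDefs

/-!
The first jump of the number of models for monadic second-order sentences, for all arities.
-/

set_option autoImplicit false

namespace Pool.Agent.Helper83.FM

open FirstOrder FirstOrder.Language Pool.Agent.Helper20.Spectra
open Pool.Agent.Helper58.QD Pool.Agent.Helper29.MW Pool.Agent.Helper14.SS Pool.Agent.Helper20.EX2
open Pool.Agent.Helper38.MC (mp bp bp_eq ext inv_choice)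
open Pool.Agent.Helper31.QD (Au resI)

variable {S : Type} {ar : S → ℕ}

lemma ext_down {N ι κ T : Type} [Finite ι] {R : Interp S ar (N ⊕ ι × T)}
    (hR : ∀ π : Equiv.Perm ι, Au R (bp π)) (j : κ → ι) (hj : Function.Injective j) :
    ext R κ = fun s w => R s (mp j ∘ w) := by
  funext s w
  apply propext
  constructor
  · rintro ⟨g, h1, h2⟩
    exact (inv_choice hR w h1 hj.injOn).1 h2
  · intro h
    exact ⟨j, hj.injOn, h⟩

theorem dropM (ψ : MFm S ar 0 0) : ∃ q, Drop (fun (n : ℕ) (R : Interp S ar (Fin n)) => MSat R ψ) q := by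
  classical
  obtain ⟨q, hq, h⟩ := Helper6.MC.pumpXM Unit ψ
  refine ⟨q, fun n R C x hx hC hqC hR W hW e => ?_⟩
  have hsup := Helper31.FM.sup_of_twins hC
  let N : Type := {y : Fin n // ¬ y ∈ C}
  let ι : Type := {y : Fin n // y ∈ C}
  let κ : Type := {y : Fin n // y ∈ C ∧ y ≠ x}
  let j : κ → ι := fun y => ⟨y.1, y.2.1⟩
  have hj : Function.Injective j := fun a b hab =>
    Subtype.ext (congrArg (fun z : ι => (z : Fin n)) hab)
  let e1 : N ⊕ ι × Unit ≃ Fin n :=
    ((Equiv.sumComm _ _).trans (Equiv.sumCongr (Equiv.prodPUnit ι) (Equiv.refl _))).trans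
      (Equiv.sumCompl (fun z => z ∈ C))
  have he1 : ∀ a : N, e1 (Sum.inl a) = a.1 := fun a => rfl
  have he2 : ∀ p : ι × Unit, e1 (Sum.inr p) = p.1.1 := fun p => rfl
  let R0 : Interp S ar (N ⊕ ι × Unit) := fun s w => R s (e1 ∘ w)
  have hM0 : MSat R0 ψ := (MSat.iso R e1.symm ψ).1 hR
  have hR0 : ∀ π : Equiv.Perm ι, Au R0 (bp π) := by
    intro π s w
    have h1 := hsup s (e1.symm.trans ((bp π).trans e1)) (by
      intro z hz
      have hz' : z = e1 (Sum.inl ⟨z, Finset.mem_compl.1 hz⟩) := rfl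
      rw [hz']
      show e1 (bp π (e1.symm (e1 (Sum.inl _)))) = _
      rw [Equiv.symm_apply_apply, bp_eq]
      rfl) (e1 ∘ w)
    show R s (e1 ∘ (bp π ∘ w)) ↔ R s (e1 ∘ w)
    rw [← h1]
    have : (e1.symm.trans ((bp π).trans e1)) ∘ (e1 ∘ w) = e1 ∘ (bp π ∘ w) := by
      funext a
      show e1 (bp π (e1.symm (e1 (w a)))) = _
      rw [Equiv.symm_apply_apply]
      rfl
    rw [this]
  have hcι : q ≤ Nat.card ι := by
    rw [Nat.card_eq_fintype_card, Fintype.card_coe]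
    omega
  have hcκ : q ≤ Nat.card κ := by
    have h1 : Nat.card κ = (C.erase x).card := by
      rw [Nat.card_eq_fintype_card, ← Fintype.card_coe]
      exact Fintype.card_congr (Equiv.subtypeEquivRight fun y => by
        rw [Finset.mem_erase]; exact and_comm)
    rw [h1, Finset.card_erase_of_mem hx]
    omega
  have h2 := (h N ι κ R0 hR0 hcι hcκ).1 hM0
  rw [ext_down hR0 j hj] at h2
  -- the isomorphism
  have hfW : ∀ a : N ⊕ κ × Unit, e1 (mp j a) ∈ W := by
    intro a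
    rw [hW]
    rcases a with a | ⟨a, b⟩
    · show (a.1 : Fin n) ≠ x
      rintro h3
      exact a.2 (h3 ▸ hx)
    · exact a.2.2
  let f : N ⊕ κ × Unit ≃ W := Equiv.ofBijective (fun a => ⟨e1 (mp j a), hfW a⟩) (by
    constructor
    · intro a b hab
      have h3 : e1 (mp j a) = e1 (mp j b) := congrArg Subtype.val hab
      have h4 := e1.injective h3
      rcases a with a | ⟨a, a'⟩ <;> rcases b with b | ⟨b, b'⟩
      · exact congrArg Sum.inl (Sum.inl_injective h4)
      · exact absurd h4 (by simp [mp])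
      · exact absurd h4 (by simp [mp])
      · have h5 : j a = j b := congrArg Prod.fst (Sum.inr_injective h4)
        rw [hj h5]
    · intro w
      by_cases hw : (w : Fin n) ∈ C
      · exact ⟨Sum.inr (⟨w.1, hw, (hW _).1 w.2⟩, ()), Subtype.ext rfl⟩
      · exact ⟨Sum.inl ⟨w.1, hw⟩, Subtype.ext rfl⟩)
  have h3 := (MSat.iso _ (f.trans e) ψ).1 h2
  have h4 : (fun (s : S) (v : Fin (ar s) → Fin W.card) =>
      R0 s (mp j ∘ fun i => (f.trans e).symm (v i))) = fun s w => resI R W s (e.symm ∘ w) := by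
    funext s v
    show R s (e1 ∘ (mp j ∘ fun i => f.symm (e.symm (v i)))) = R s (fun i => ((e.symm (v i) : W) : Fin n))
    congr 1
    funext i
    have h5 : f (f.symm (e.symm (v i))) = e.symm (v i) := f.apply_symm_apply _
    exact congrArg Subtype.val h5
  rw [h4] at h3
  exact h3

/-- the clause for monadic second-order sentences -/
def StmtJumpM : Prop := ∀ (S : Type) [Finite S] (ar : S → ℕ) (φ : SFm (RelLang S ar) 0 0),
  ((∃ C, ∀ n, 1 ≤ n → Helper40.MCM.countM φ n ≤ C ^ n) ∧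
    ((Helper40.MCM.specM φ).Finite ∨ (Helper40.MCM.specM φ)ᶜ.Finite)) ∨
    ∃ D, 1 ≤ D ∧ ∀ N, ∃ n, N ≤ n ∧ n ^ n ≤ Helper40.MCM.countM φ n ^ D

theorem stmtJumpM : StmtJumpM := by
  intro S _ ar φ
  obtain ⟨ψ, hψ⟩ := Helper6.MC.exists_mfm φ
  have key : ∀ {n : ℕ} (R : Interp S ar (Fin n)), MSat R ψ ↔ Helper40.MCM.SatM φ R :=
    fun {n} R => (hψ (Fin n) R).symm
  obtain ⟨q₁, hD⟩ := dropM ψ
  obtain ⟨q₂, hq₂, hG⟩ := Helper6.MC.pumpM ψ 1
  have hP : PermInv (fun (n : ℕ) (R : Interp S ar (Fin n)) => MSat R ψ) :=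
    fun n R π hR => (MSat.iso R π.symm ψ).1 hR
  have hG' : Grow (fun (n : ℕ) (R : Interp S ar (Fin n)) => MSat R ψ) q₂ :=
    fun n R hR u hu h j => hG le_rfl R hR u hu h j
  have hcnt : ∀ n, cnt (fun (n : ℕ) (R : Interp S ar (Fin n)) => MSat R ψ) n =
      Helper40.MCM.countM φ n := fun n =>
    Nat.card_congr (Equiv.subtypeEquivRight fun R => key R)
  rcases jumpQ hP hD hG' with ⟨h1, n0, h2 | h2⟩ | h
  · left
    refine ⟨?_, Or.inl ?_⟩
    · obtain ⟨C, hC⟩ := h1
      exact ⟨C, fun n hn => hcnt n ▸ hC n hn⟩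
    · apply (Set.finite_lt_nat n0).subset
      rintro n ⟨_, R, hR⟩
      by_contra hcon
      exact h2 n (not_lt.1 hcon) ⟨R, (key R).2 hR⟩
  · left
    refine ⟨?_, Or.inr ?_⟩
    · obtain ⟨C, hC⟩ := h1
      exact ⟨C, fun n hn => hcnt n ▸ hC n hn⟩
    · apply (Set.finite_lt_nat (n0 + 1)).subset
      intro n hn
      by_contra hcon
      have h3 : n0 + 1 ≤ n := not_lt.1 hcon
      obtain ⟨R, hR⟩ := h2 n (by omega)
      exact hn ⟨by omega, R, (key R).1 hR⟩
  · right
    obtain ⟨D, hD1, hD2⟩ := h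
    refine ⟨D, hD1, fun N => ?_⟩
    obtain ⟨n, hn, hn2⟩ := hD2 N
    exact ⟨n, hn, hcnt n ▸ hn2⟩

end Pool.Agent.Helper83.FM
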