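import Pool.Agent.Helper83.FM.Jump

/-!
The first jump of the number of models for any isomorphism-invariant property which does not see
one twin more or less in a large class.
-/

set_option autoImplicit false

namespace Pool.Agent.Helper83.FM

open FirstOrder FirstOrder.Language Pool.Agent.Helper20.Spectra
open Pool.Agent.Helper58.QD
open Pool.Agent.Helper31.QD (Au qd resI)

variable {S : Type} {ar : S → ℕ}

/-- the number of structures with the property -/
noncomputable def cnt (Q : ∀ n, Interp S ar (Fin n) → Prop) (n : ℕ) : ℕ :=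
  Nat.card {R : Interp S ar (Fin n) // Q n R}

/-- closed under permutations -/
def PermInv (Q : ∀ n, Interp S ar (Fin n) → Prop) : Prop :=
  ∀ (n : ℕ) (R : Interp S ar (Fin n)) (π : Equiv.Perm (Fin n)), Q n R → Q n (fun s w => R s (π ∘ w))

/-- a point of a large class can be dropped -/
def Drop (Q : ∀ n, Interp S ar (Fin n) → Prop) (q : ℕ) : Prop :=
  ∀ (n : ℕ) (R : Interp S ar (Fin n)) (C : Finset (Fin n)) (x : Fin n), x ∈ C →
    (∀ a ∈ C, ∀ b ∈ C, Au R (Equiv.swap a b)) → q < C.card → Q n R →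
    ∀ (W : Finset (Fin n)), (∀ a, a ∈ W ↔ a ≠ x) → ∀ e : W ≃ Fin W.card,
      Q W.card (fun s w => resI R W s (e.symm ∘ w))

/-- points can be added to a large class -/
def Grow (Q : ∀ n, Interp S ar (Fin n) → Prop) (q : ℕ) : Prop :=
  ∀ (n : ℕ) (R : Interp S ar (Fin n)), Q n R → ∀ u : Fin q × Fin 1 → Fin n, Function.Injective u →
    (∀ (π : Equiv.Perm (Fin q)) (σ : Equiv.Perm (Fin n)), (∀ i x, σ (u (i, x)) = u (π i, x)) →
      (∀ z, (∀ p, u p ≠ z) → σ z = z) → Au R σ) → ∀ j : ℕ,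
    ∃ R' : Interp S ar (Fin (n + 1 * j)), Q _ R'

/-- `n! ≤ N · |Aut|` -/
theorem factorial_leQ [Finite S] {Q : ∀ n, Interp S ar (Fin n) → Prop} (hQ : PermInv Q) {n k : ℕ} (hk : ∀ s, ar s ≤ k)
    {R : Interp S ar (Fin n)} (hR : Q n R) {A : Finset (Fin n)} (hA : Ind (pad hk R) A) :
    n.factorial ≤ cnt Q n * n ^ (n - A.card) := by
  classical
  have : Finite (Interp S ar (Fin n)) := Pi.finite
  have := Fintype.ofFinite {R : Interp S ar (Fin n) // Q n R}
  let Φ : Equiv.Perm (Fin n) → {R : Interp S ar (Fin n) // Q n R} := fun σ =>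
    ⟨fun s w => R s (σ ∘ w), hQ n R σ hR⟩
  have h1 := Finset.card_le_mul_card_image (f := Φ) (Finset.univ : Finset (Equiv.Perm (Fin n)))
    (n ^ (n - A.card)) (by
      intro a ha
      obtain ⟨σ0, _, rfl⟩ := Finset.mem_image.1 ha
      have h2 := aut_card (pad hk R) hA
      rw [Fintype.card_fin] at h2
      refine le_trans ?_ h2
      refine Finset.card_le_card_of_injOn (fun σ => σ * σ0⁻¹) ?_ ?_
      · intro σ hσ
        have h3 : Φ σ = Φ σ0 := (Finset.mem_filter.1 (Finset.mem_coe.1 hσ)).2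
        have h4 := congrArg Subtype.val h3
        rw [Finset.mem_coe, Finset.mem_filter]
        refine ⟨Finset.mem_univ _, pad_aut hk R _ ?_⟩
        intro s t
        have h5 : R s (σ ∘ (⇑σ0⁻¹ ∘ t)) = R s (σ0 ∘ (⇑σ0⁻¹ ∘ t)) :=
          congrFun (congrFun h4 s) (⇑σ0⁻¹ ∘ t)
        have e1 : (⇑(σ * σ0⁻¹) ∘ t) = σ ∘ (⇑σ0⁻¹ ∘ t) := by
          funext j
          simp
        have e2 : (σ0 ∘ (⇑σ0⁻¹ ∘ t)) = t := by
          funext j
          simp
        rw [e1, h5, e2]
      · intro σ _ τ _ h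
        exact mul_right_cancel h)
  have h2 : (Finset.univ : Finset (Equiv.Perm (Fin n))).card = n.factorial := by
    rw [Finset.card_univ, Fintype.card_perm, Fintype.card_fin]
  rw [h2] at h1
  refine h1.trans ?_
  rw [mul_comm]
  refine Nat.mul_le_mul_right _ ?_
  have h3 : cnt Q n = Fintype.card {R : Interp S ar (Fin n) // Q n R} :=
    Nat.card_eq_fintype_card
  rw [h3]
  exact Finset.card_le_univ _

/-- many models -/
theorem many_modelsQ [Finite S] {Q : ∀ n, Interp S ar (Fin n) → Prop} (hQ : PermInv Q) {n k D : ℕ} (hk : ∀ s, ar s ≤ k)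
    {R : Interp S ar (Fin n)} (hR : Q n R) {A : Finset (Fin n)} (hA : Ind (pad hk R) A)
    (hD : n ≤ D * A.card) (hn : 9 ^ D ≤ n) : n ^ n ≤ cnt Q n ^ (2 * D) := by
  have hn0 : 0 < n := lt_of_lt_of_le (by positivity) hn
  have h1 := factorial_leQ hQ hk hR hA
  have h2 := pow_self_le n
  have hAn : A.card ≤ n := by
    have := Finset.card_le_univ A
    rwa [Fintype.card_fin] at this
  have h3 : n ^ A.card ≤ 3 ^ n * cnt Q n := by
    have h4 : n ^ A.card * n ^ (n - A.card) ≤ 3 ^ n * cnt Q n * n ^ (n - A.card) := by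
      rw [← pow_add, Nat.add_sub_cancel' hAn, mul_assoc]
      exact h2.trans (Nat.mul_le_mul_left _ h1)
    exact Nat.le_of_mul_le_mul_right h4 (by positivity)
  have h5 : n ^ n * n ^ n ≤ n ^ n * cnt Q n ^ (2 * D) := by
    have h6 : (n ^ A.card) ^ (2 * D) ≤ (3 ^ n * cnt Q n) ^ (2 * D) := Nat.pow_le_pow_left h3 _
    rw [mul_pow] at h6
    have h7 : n ^ n * n ^ n ≤ (n ^ A.card) ^ (2 * D) := by
      rw [← pow_add, ← pow_mul]
      exact Nat.pow_le_pow_right hn0 (by nlinarith)
    have h8 : (3 ^ n) ^ (2 * D) ≤ n ^ n := by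
      have h9 : (3 ^ n) ^ (2 * D) = (9 ^ D) ^ n := by
        rw [← pow_mul, ← pow_mul]
        have : (9 : ℕ) = 3 ^ 2 := by norm_num
        rw [this, ← pow_mul]
        ring_nf
      rw [h9]
      exact Nat.pow_le_pow_left hn n
    exact h7.trans (h6.trans (Nat.mul_le_mul_right _ h8))
  exact Nat.le_of_mul_le_mul_left h5 (by positivity)

theorem count_leQ [Finite S] {Q : ∀ n, Interp S ar (Fin n) → Prop} {r : ℕ}
    (h : ∀ (n : ℕ) (R : Interp S ar (Fin n)) (T : Finset (Fin n)), Q n R → NT R T → T.card ≤ r) :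
    ∃ C, ∀ n, 1 ≤ n → cnt Q n ≤ C ^ n := by
  classical
  have hfin : Finite (Code S ar r) := by
    have : ∀ s : S, Finite ((Fin (ar s) → Fin r) → (Fin (ar s) → Fin (ar s) → Prop) → Prop) :=
      fun s => inferInstance
    exact Pi.finite
  have hne : Nonempty (Code S ar r) := ⟨fun _ _ _ => True⟩
  refine ⟨r * Nat.card (Code S ar r), fun n hn => ?_⟩
  have key : ∀ R : {R : Interp S ar (Fin n) // Q n R}, ∃ p : Fin n → Fin r, ∀ x y, p x = p y →
      Au R.1 (Equiv.swap x y) := by
    intro R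
    obtain ⟨T, hT, hcov⟩ := exists_reps R.1
    have hTr := h n R.1 T R.2 hT
    choose f hfT hf using hcov
    let e := T.equivFin
    refine ⟨fun x => Fin.castLE hTr (e ⟨f x, hfT x⟩), ?_⟩
    intro x y hxy
    have h1 : e ⟨f x, hfT x⟩ = e ⟨f y, hfT y⟩ := Fin.castLE_injective hTr hxy
    have h2 : f x = f y := congrArg Subtype.val (e.injective h1)
    exact tw_trans (hf x) (h2 ▸ tw_symm (hf y))
  choose p hp using key
  let F : {R : Interp S ar (Fin n) // Q n R} → (Fin n → Fin r) × Code S ar r := fun R =>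
    (p R, fun s f e => ∃ t, p R ∘ t = f ∧ (∀ i j, e i j ↔ t i = t j) ∧ R.1 s t)
  have himp : ∀ R R' : {R : Interp S ar (Fin n) // Q n R}, F R = F R' → ∀ s t, R.1 s t →
      R'.1 s t := by
    intro R R' hF s t ht
    have h1 : p R = p R' := congrArg Prod.fst hF
    have h2 : (F R).2 = (F R').2 := congrArg Prod.snd hF
    have h3 : (F R).2 s (p R ∘ t) (fun i j => t i = t j) := ⟨t, rfl, fun i j => Iff.rfl, ht⟩
    rw [h2] at h3
    obtain ⟨t', ht', he, hR'⟩ := h3
    refine (atom_congr _ t' t rfl (fun i => ?_) (fun i j => (he i j).symm)).1 hR'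
    refine hp R' _ _ ?_
    have h4 := congrFun ht' i
    simp only [Function.comp] at h4
    rw [h4, h1]
  have hinj : Function.Injective F := by
    intro R R' hF
    apply Subtype.ext
    funext s t
    exact propext ⟨himp R R' hF s t, himp R' R hF.symm s t⟩
  have h1 : cnt Q n ≤ Nat.card ((Fin n → Fin r) × Code S ar r) :=
    Nat.card_le_card_of_injective F hinj
  rw [Nat.card_prod, Nat.card_eq_fintype_card, Fintype.card_fun, Fintype.card_fin,
    Fintype.card_fin] at h1
  refine h1.trans ?_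
  rw [mul_pow]
  refine Nat.mul_le_mul_left _ ?_
  exact Nat.le_self_pow (by omega) _

/-- the spectrum is finite or cofinite -/
theorem spec_fewQ {Q : ∀ n, Interp S ar (Fin n) → Prop} {r q : ℕ} (hG : Grow Q q)
    (h : ∀ (n : ℕ) (R : Interp S ar (Fin n)) (T : Finset (Fin n)), Q n R → NT R T → T.card ≤ r) :
    ∃ n0, (∀ n, n0 ≤ n → ¬ ∃ R : Interp S ar (Fin n), Q n R) ∨
      ∀ n, n0 ≤ n → ∃ R : Interp S ar (Fin n), Q n R := by
  classical
  by_cases hex : ∃ n, r * q < n ∧ ∃ R : Interp S ar (Fin n), Q n R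
  swap
  · refine ⟨r * q + 1, Or.inl fun n hn hR => hex ⟨n, by omega, hR⟩⟩
  obtain ⟨n, hn, R, hR⟩ := hex
  refine ⟨n, Or.inr fun m hm => ?_⟩
  obtain ⟨T, hT, hcov⟩ := exists_reps R
  have hTr := h n R T hR hT
  choose f hfT hf using hcov
  -- a large class
  obtain ⟨y, -, hy⟩ : ∃ y ∈ T, q < ((Finset.univ : Finset (Fin n)).filter fun x => f x = y).card := by
    apply Finset.exists_lt_card_fiber_of_mul_lt_card_of_maps_to (fun x _ => hfT x)
    rw [Finset.card_univ, Fintype.card_fin]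
    exact lt_of_le_of_lt (Nat.mul_le_mul_right q hTr) hn
  obtain ⟨K, hK, hKc⟩ := Finset.exists_subset_card_eq hy.le
  have htw : ∀ u v, u ∈ K → v ∈ K → Au R (Equiv.swap u v) := by
    intro u v hu hv
    have h1 := (Finset.mem_filter.1 (hK hu)).2
    have h2 := (Finset.mem_filter.1 (hK hv)).2
    have h3 := hf u
    have h4 := hf v
    rw [h1] at h3
    rw [h2] at h4
    exact tw_trans h3 (tw_symm h4)
  let e := K.equivFinOfCardEq hKc
  let u : Fin q × Fin 1 → Fin n := fun p => (e.symm p.1 : Fin n)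
  have hu : Function.Injective u := by
    rintro ⟨i, a⟩ ⟨j, b⟩ hij
    have h1 : e.symm i = e.symm j := Subtype.ext hij
    exact Prod.ext (e.symm.injective h1) (Subsingleton.elim _ _)
  have h9 := hG n R hR u hu (by
    intro π σ _ hσ s t
    refine Helper6.QG.sup_of_twin (C := Kᶜ) (fun a b ha hb => ?_) σ (fun c hc => ?_) t
    · rw [Finset.mem_compl, not_not] at ha hb
      exact htw a b ha hb s
    · apply hσ
      intro p hp
      rw [Finset.mem_compl] at hc
      apply hc
      rw [← hp]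
      exact (e.symm p.1).2) (m - n)
  have hnm : n + 1 * (m - n) = m := by omega
  rw [hnm] at h9
  exact h9

/-- L3 -/
theorem min_modelQ {Q : ∀ n, Interp S ar (Fin n) → Prop} {q : ℕ} (hD : Drop Q q) {k : ℕ} (hk : ∀ s, ar s ≤ k)
    (h : ∀ r, ∃ (n : ℕ) (R : Interp S ar (Fin n)) (T : Finset (Fin n)), Q n R ∧ r ≤ T.card ∧
      ∀ x ∈ T, ∀ y ∈ T, x ≠ y → ¬ Au R (Equiv.swap x y)) :
    ∀ N, ∃ n, N ≤ n ∧ ∃ R : Interp S ar (Fin n), Q n R ∧
      ∀ C : Finset (Fin n), (∀ x ∈ C, ∀ y ∈ C, Au R (Equiv.swap x y)) → C.card ≤ k + q + 3 := by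
  classical
  intro N
  have hex : ∃ n, ∃ (R : Interp S ar (Fin n)) (T : Finset (Fin n)), Q n R ∧ N ≤ T.card ∧
      ∀ x ∈ T, ∀ y ∈ T, x ≠ y → ¬ Au R (Equiv.swap x y) := by
    obtain ⟨n, R, T, h1⟩ := h N
    exact ⟨n, R, T, h1⟩
  obtain ⟨R, T, hR, hT, hT'⟩ := Nat.find_spec hex
  have hmin : ∀ m, (∃ (R : Interp S ar (Fin m)) (T : Finset (Fin m)), Q m R ∧ N ≤ T.card ∧
      ∀ x ∈ T, ∀ y ∈ T, x ≠ y → ¬ Au R (Equiv.swap x y)) → Nat.find hex ≤ m := fun m hm => Nat.find_min' hex hm
  generalize Nat.find hex = n at R T hR hT hT' hmin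
  have hTn : T.card ≤ n := by
    have := Finset.card_le_univ T
    rwa [Fintype.card_fin] at this
  refine ⟨n, by omega, R, hR, fun C hC => ?_⟩
  by_contra hcon
  push Not at hcon
  -- a point of the class outside `T`
  obtain ⟨x, hxC, hxT⟩ : ∃ x ∈ C, x ∉ T := by
    by_contra hall
    push Not at hall
    obtain ⟨a, ha, b, hb, hab⟩ := Finset.one_lt_card.1 (show 1 < C.card by omega)
    exact hT' a (hall a ha) b (hall b hb) hab (hC a ha b hb)
  set W : Finset (Fin n) := Cᶜ ∪ C.erase x with hW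
  have hmemW : ∀ z, z ∈ W ↔ z ≠ x := by
    intro z
    rw [hW, Finset.mem_union, Finset.mem_compl, Finset.mem_erase]
    constructor
    · rintro (h1 | h1)
      · rintro rfl; exact h1 hxC
      · exact h1.1
    · intro h1
      by_cases hz : z ∈ C
      · exact Or.inr ⟨h1, hz⟩
      · exact Or.inl hz
  have hWc : W.card < n := by
    have h1 : W ⊂ Finset.univ := by
      rw [Finset.ssubset_univ_iff]
      intro h2
      exact (hmemW x).1 (by rw [h2]; exact Finset.mem_univ x) rfl
    have := Finset.card_lt_card h1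
    rwa [Finset.card_univ, Fintype.card_fin] at this
  -- the points of `T` are not twins in the smaller structure
  have hnt : ∀ y z : W, (y : Fin n) ∈ T → (z : Fin n) ∈ T → y ≠ z → ¬ Au (resI R W) (Equiv.swap y z) := by
    intro y z hy hz hyz hau
    have hyz' : (y : Fin n) ≠ z := fun h => hyz (Subtype.ext h)
    apply hT' y hy z hz hyz'
    intro s t
    -- move the tuple off `x`
    obtain ⟨w, hw, hw'⟩ : ∃ w ∈ C, w ∉ (Finset.univ.image t ∪ {(y : Fin n), (z : Fin n), x}) := by
      apply Finset.exists_mem_notMem_of_card_lt_card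
      have h1 : (Finset.univ.image t ∪ {(y : Fin n), (z : Fin n), x}).card ≤ k + 3 := by
        refine (Finset.card_union_le _ _).trans ?_
        have h2 : (Finset.univ.image t).card ≤ ar s := by
          refine Finset.card_image_le.trans ?_
          simp
        have h3 := hk s
        have h4 : ({(y : Fin n), (z : Fin n), x} : Finset (Fin n)).card ≤ 3 := Finset.card_le_three
        omega
      omega
    simp only [Finset.mem_union, Finset.mem_image, Finset.mem_univ, true_and, Finset.mem_insert, Finset.mem_singleton, not_or,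
      not_exists] at hw'
    obtain ⟨hwt, hwy, hwz, hwx⟩ := hw'
    have hxw := hC x hxC w hw
    have hyx : (y : Fin n) ≠ x := (hmemW y).1 y.2
    have hzx : (z : Fin n) ≠ x := (hmemW z).1 z.2
    have hmem : ∀ i, Equiv.swap x w (t i) ∈ W := by
      intro i
      rw [hmemW]
      intro h1
      have h2 : t i = w := by
        have := congrArg (Equiv.swap x w) h1
        rwa [Equiv.swap_apply_self, Equiv.swap_apply_left] at this
      exact hwt i h2
    let t' : Fin (ar s) → W := fun i => ⟨Equiv.swap x w (t i), hmem i⟩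
    have h1 := hau s t'
    have h2 : resI R W s t' ↔ R s t := hxw s t
    have h3 : ∀ q : W, ((Equiv.swap y z q : W) : Fin n) = Equiv.swap (y : Fin n) (z : Fin n) (q : Fin n) := by
      intro q
      by_cases hq1 : q = y
      · subst hq1
        rw [Equiv.swap_apply_left, Equiv.swap_apply_left]
      · by_cases hq2 : q = z
        · subst hq2
          rw [Equiv.swap_apply_right, Equiv.swap_apply_right]
        · rw [Equiv.swap_apply_of_ne_of_ne hq1 hq2, Equiv.swap_apply_of_ne_of_ne]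
          · exact fun h => hq1 (Subtype.ext h)
          · exact fun h => hq2 (Subtype.ext h)
    have h4 : resI R W s (Equiv.swap y z ∘ t') ↔ R s (Equiv.swap (y : Fin n) (z : Fin n) ∘ t) := by
      rw [← hxw s (Equiv.swap (y : Fin n) (z : Fin n) ∘ t)]
      refine Iff.of_eq (congrArg (R s) ?_)
      funext i
      show ((Equiv.swap y z (t' i) : W) : Fin n) = Equiv.swap x w (Equiv.swap (y : Fin n) (z : Fin n) (t i))
      rw [h3]
      show Equiv.swap (y : Fin n) (z : Fin n) (Equiv.swap x w (t i)) = _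
      by_cases ha : t i = x
      · rw [ha, Equiv.swap_apply_left, Equiv.swap_apply_of_ne_of_ne hwy hwz,
          Equiv.swap_apply_of_ne_of_ne (Ne.symm hyx) (Ne.symm hzx), Equiv.swap_apply_left]
      · have hb : t i ≠ w := hwt i
        rw [Equiv.swap_apply_of_ne_of_ne ha hb]
        by_cases hy1 : t i = y
        · rw [hy1, Equiv.swap_apply_left, Equiv.swap_apply_of_ne_of_ne hzx (Ne.symm hwz)]
        · by_cases hz1 : t i = z
          · rw [hz1, Equiv.swap_apply_right, Equiv.swap_apply_of_ne_of_ne hyx (Ne.symm hwy)]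
          · rw [Equiv.swap_apply_of_ne_of_ne hy1 hz1, Equiv.swap_apply_of_ne_of_ne ha hb]
    exact (h4.symm.trans h1).trans h2
  -- transport
  let e : W ≃ Fin W.card := W.equivFin
  let R' : Interp S ar (Fin W.card) := fun s t => resI R W s (e.symm ∘ t)
  have hmod' : Q W.card R' := hD n R C x hxC hC (by omega) hR W hmemW e
  have hTW : ∀ a ∈ T, a ∈ W := fun a ha => (hmemW a).2 (by rintro rfl; exact hxT ha)
  let iT : {a // a ∈ T} → W := fun a => ⟨a.1, hTW a.1 a.2⟩
  have hiT : ∀ a b, iT a = iT b → a = b := fun a b hab => Subtype.ext (congrArg (fun q : W => (q : Fin n)) hab)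
  have hfin := hmin W.card ⟨R', T.attach.image (fun a => e (iT a)), hmod', by
    rw [Finset.card_image_of_injective, Finset.card_attach]
    · exact hT
    · intro a b hab
      exact hiT a b (e.injective hab), by
    intro y hy z hz hyz
    obtain ⟨a, -, rfl⟩ := Finset.mem_image.1 hy
    obtain ⟨b, -, rfl⟩ := Finset.mem_image.1 hz
    intro hau
    refine hnt (iT a) (iT b) a.2 b.2 (fun h => hyz (congrArg e h)) ?_
    intro s t
    have h1 := hau s (e ∘ t)
    have h2 : (e.symm ∘ (e ∘ t)) = t := by funext i; simp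
    have h3 : (e.symm ∘ (Equiv.swap (e (iT a)) (e (iT b)) ∘ (e ∘ t))) = Equiv.swap (iT a) (iT b) ∘ t := by
      funext i
      simp only [Function.comp_apply]
      rw [← Equiv.symm_trans_swap_trans, Equiv.trans_apply, Equiv.trans_apply, Equiv.symm_apply_apply, Equiv.symm_apply_apply]
    have h4 : R' s (Equiv.swap (e (iT a)) (e (iT b)) ∘ (e ∘ t)) ↔ resI R W s (Equiv.swap (iT a) (iT b) ∘ t) :=
      Iff.of_eq (congrArg (resI R W s) h3)
    have h5 : R' s (e ∘ t) ↔ resI R W s t := Iff.of_eq (congrArg (resI R W s) h2)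
    exact (h4.symm.trans h1).trans h5⟩
  omega


/-- **The first jump**, general form -/
theorem jumpQ [Finite S] {Q : ∀ n, Interp S ar (Fin n) → Prop} (hQ : PermInv Q) {q₁ q₂ : ℕ}
    (hD : Drop Q q₁) (hG : Grow Q q₂) :
    ((∃ C, ∀ n, 1 ≤ n → cnt Q n ≤ C ^ n) ∧
      ∃ n0, (∀ n, n0 ≤ n → ¬ ∃ R : Interp S ar (Fin n), Q n R) ∨
        ∀ n, n0 ≤ n → ∃ R : Interp S ar (Fin n), Q n R) ∨
    ∃ D, 1 ≤ D ∧ ∀ N, ∃ n, N ≤ n ∧ n ^ n ≤ cnt Q n ^ D := by
  classical
  obtain ⟨k, hk⟩ : ∃ k, ∀ s, ar s ≤ k := by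
    have := Fintype.ofFinite S
    exact ⟨Finset.univ.sup ar, fun s => Finset.le_sup (f := ar) (Finset.mem_univ s)⟩
  by_cases h : ∀ r, ∃ (n : ℕ) (R : Interp S ar (Fin n)) (T : Finset (Fin n)), Q n R ∧
      r ≤ T.card ∧ ∀ x ∈ T, ∀ y ∈ T, x ≠ y → ¬ Au R (Equiv.swap x y)
  · right
    set q := k + q₁ + 3 with hq
    set D := 2 * k * k + k + q with hD'
    refine ⟨2 * D, by omega, fun N => ?_⟩
    obtain ⟨n, hn, R, hR, hcl⟩ := min_modelQ hD hk h (max N (9 ^ D))
    refine ⟨n, (le_max_left _ _).trans hn, ?_⟩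
    obtain ⟨A, hA, hAn⟩ := exists_ind (pad hk R) q (by omega) (fun C hC =>
      hcl C fun x hx y hy => tw_of_pad hk (hC x hx y hy))
    rw [Fintype.card_fin] at hAn
    exact many_modelsQ hQ hk hR hA hAn ((le_max_right _ _).trans hn)
  · left
    push Not at h
    obtain ⟨r, hr⟩ := h
    have hr' : ∀ (n : ℕ) (R : Interp S ar (Fin n)) (T : Finset (Fin n)), Q n R → NT R T →
        T.card ≤ r := by
      intro n R T hR hT
      by_contra hcon
      push Not at hcon
      obtain ⟨x, hx, y, hy, hxy, h1⟩ := hr n R T hR hcon.le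
      exact hT x hx y hy hxy h1
    exact ⟨count_leQ hr', spec_fewQ hG hr'⟩

end Pool.Agent.Helper83.FM
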